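import Pool.Agent.V1173.RX.Loc

/-!
# The main estimate
-/

set_option autoImplicit false
set_option linter.all false

open MeasureTheory Complex Filter Topology Metric Set
open scoped ComplexConjugate NNReal

namespace Pool.Agent.V1173.RX

variable {X : Set ℂ} [CompactSpace X]

theorem est (hne : X.Nonempty) {Λ : C(X, ℂ) →L[ℂ] ℂ} (hΛ : Ann Λ) {f : ℂ → ℂ}
    (hf : DifferentiableOn ℂ f X) {E : Set ℂ} (hE : IsClosed E) (hEX : E ⊆ X)
    (hgood : ∀ a, a ∉ E → ∃ r > 0, Gd Λ f a r) {a₀ : ℂ} (ha₀ : a₀ ∈ E) {r : ℝ} (hr : 0 < r)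
    {n : ℝ≥0} {ρ : ℝ} (hρ : 2 * r ≤ ρ)
    (hn : ∀ e ∈ E, dist e a₀ < r → ∀ z ∈ X, dist z e < ρ → ‖f z - f e‖ ≤ n * dist z e) :
    Gd Λ f a₀ (r / 2) := by
  have hX : IsCompact X := isCompact_iff_compactSpace.2 ‹_›
  have hfc : ContinuousOn f X := hf.continuousOn
  have hEne : E.Nonempty := ⟨a₀, ha₀⟩
  have hEc : IsCompact E := hX.of_isClosed_subset hE hEX
  obtain ⟨R, hR⟩ := hX.isBounded.subset_closedBall 0
  set A : Set ℂ := E ∩ ball a₀ r with hA
  have hfA : LipschitzOnWith n f A := by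
    apply LipschitzOnWith.of_dist_le_mul
    intro x hx y hy
    have h1 : dist x y < ρ := by
      have := dist_triangle_right x y a₀
      have h2 := mem_ball.1 hx.2
      have h3 := mem_ball.1 hy.2
      linarith
    rw [dist_eq_norm]
    exact hn y hy.1 (mem_ball.1 hy.2) x (hEX hx.1) h1
  obtain ⟨g, hg, hgA⟩ := hfA.extend_finite_dimension
  set L : ℝ≥0 := lipschitzExtensionConstant ℂ * n with hL
  have hgae := dbg hf (A := A) (fun z hz => hEX hz.1) (hE.measurableSet.inter measurableSet_ball)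
    hg hgA
  intro ψ hψ hψ0
  obtain ⟨Mψ, hMψ⟩ := tst_bdd hψ
  obtain ⟨Cψ, hCψ, hsψ⟩ := id hψ
  set M' : ℝ := (n + L) * (2 * Mψ + 2 * Cψ) + Mψ * L with hM'
  have hM'0 : 0 ≤ M' := by positivity
  rw [← norm_le_zero_iff]
  apply le_of_forall_pos_le_add
  intro ε hε
  rw [zero_add]
  have hpi := Real.pi_pos
  obtain ⟨δ, hδ, η₀, hη₀, hsm⟩ := small (M := ‖Λ‖ * (Real.pi⁻¹ * M')) (by positivity) (half_pos hε)
  obtain ⟨N, hN⟩ := Vn_small hE hEne R hη₀
  -- choice of the scale
  set τ : ℝ := min (min (r / 2) 1) (ε / 2 / (‖Λ‖ * (Mψ * (n + L)) + 1)) with hτ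
  have hτ0 : 0 < τ := by
    apply lt_min (lt_min (by positivity) one_pos)
    positivity
  obtain ⟨m₀, hm₀⟩ := exists_nat_one_div_lt hτ0
  set m : ℕ := max N m₀ with hm
  set t : ℝ := 1 / ((m : ℝ) + 1) with ht
  have ht0 : 0 < t := by positivity
  have htτ : t < τ := by
    refine lt_of_le_of_lt ?_ hm₀
    have : (m₀ : ℝ) ≤ m := by exact_mod_cast le_max_right N m₀
    exact one_div_le_one_div_of_le (by positivity) (by linarith)
  have ht1 : t < r / 2 := htτ.trans_le ((min_le_left _ _).trans (min_le_left _ _))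
  have ht2 : t < 1 := htτ.trans_le ((min_le_left _ _).trans (min_le_right _ _))
  have ht3 : ‖Λ‖ * (Mψ * ((n + L) * t)) ≤ ε / 2 := by
    have h1 : t ≤ ε / 2 / (‖Λ‖ * (Mψ * (n + L)) + 1) := htτ.le.trans (min_le_right _ _)
    have h2 : (0:ℝ) < ‖Λ‖ * (Mψ * (n + L)) + 1 := by positivity
    rw [le_div_iff₀ h2] at h1
    nlinarith
  have hη : 0 < t / 2 := by positivity
  set d : ℂ → ℝ := fun z => infDist z E with hd
  have hdl : LipschitzWith 1 d := lipschitz_infDist_pt E
  set χ := cut d (t / 2) with hχ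
  have hχl := cut_lip hdl hη
  have hχl' : LipschitzWith (0 + _) (fun z => 1 - χ z) := (LipschitzWith.const 1).sub hχl
  have t1 : Tst (fun z => ψ z * χ z) := tst_mul hχl (cut_le d _) hψ
  have t2 : Tst (fun z => ψ z * (1 - χ z)) := tst_mul hχl' (cut_le' d _) hψ
  have e0 : ψ = fun z => ψ z * χ z + ψ z * (1 - χ z) := by funext z; ring
  have e2 : D Λ f (fun z => ψ z * (1 - χ z)) = 0 := by
    refine glue Λ hfc (T := {z | z ∈ closedBall a₀ (r / 2) ∧ t / 2 ≤ d z}) ?_ ?_ t2 ?_
    · exact (isCompact_closedBall a₀ (r / 2)).inter_right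
        (isClosed_le continuous_const (continuous_infDist_pt E))
    · intro a ha
      refine hgood a fun haE => ?_
      have h1 := ha.2
      rw [hd] at h1
      simp only at h1
      rw [infDist_zero_of_mem haE] at h1
      linarith
    · intro z hz
      by_cases h1 : z ∈ closedBall a₀ (r / 2)
      · have h2 : d z ≤ t / 2 := by
          by_contra h3
          exact hz ⟨h1, (not_le.1 h3).le⟩
        rw [hχ, cut_one hη h2, sub_self, mul_zero]
      · rw [mem_closedBall, not_le] at h1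
        rw [hψ0 z h1.le, zero_mul]
  have e1 : D Λ f ψ = D Λ f (fun z => ψ z * χ z) := by
    conv_lhs => rw [e0]
    rw [D_add Λ hfc t1 t2, e2, add_zero]
  rw [e1]
  set φ : ℂ → ℂ := fun z => ψ z * χ z with hφ
  have hφl : LipschitzWith (Mψ * ⟨(t / 2)⁻¹, by positivity⟩ + 1 * Cψ) φ :=
    lip_mul hCψ hχl hMψ (b := 1) (fun z _ => cut_le d _ z)
  have hφM : ∀ z, ‖φ z‖ ≤ Mψ := by
    intro z
    rw [hφ]
    simp only [norm_mul]
    calc ‖ψ z‖ * ‖χ z‖ ≤ Mψ * 1 := mul_le_mul (hMψ z) (cut_le d _ z) (norm_nonneg _) Mψ.2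
      _ = Mψ := mul_one _
  have hφs : HasCompactSupport φ := hsψ.mul_right
  -- the product with `g`
  obtain ⟨b, hb⟩ : ∃ b : ℝ≥0, ∀ z, φ z ≠ 0 → ‖g z‖ ≤ b := by
    obtain ⟨b, hb⟩ := IsCompact.exists_bound_of_continuousOn (f := g)
      (show IsCompact (tsupport φ) from hφs) hg.continuous.continuousOn
    refine ⟨⟨max b 0, le_max_right _ _⟩, fun z hz => ?_⟩
    exact (hb z (subset_tsupport φ hz)).trans (le_max_left _ _)
  have hFl := lip_mul hφl hg hφM hb
  have hFs : HasCompactSupport (fun z => φ z * g z) := hφs.mul_right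
  have hpom := pomX hne hΛ hFl hFs
  have HF : Den (fun w => X.indicator (db (fun z => φ z * g z)) w) := by
    have H := den_db hFl hFs
    obtain ⟨M, hM⟩ := H.bdd
    obtain ⟨R, hR⟩ := H.supp
    refine ⟨H.meas.indicator hX.measurableSet, ⟨M, fun z => (norm_indicator_le_norm_self _ _).trans (hM z)⟩,
      ⟨R, fun z hz => ?_⟩⟩
    by_cases hz' : z ∈ X
    · rw [indicator_of_mem hz', hR z hz]
    · rw [indicator_of_notMem hz']
  have Hq := den_qq hfc hφl
  set h : ℂ → ℂ := fun w => qq X f φ w - X.indicator (db (fun z => φ z * g z)) w with hh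
  have Hh : Den h := by
    obtain ⟨M1, hM1⟩ := Hq.bdd
    obtain ⟨M2, hM2⟩ := HF.bdd
    obtain ⟨R1, hR1⟩ := Hq.supp
    obtain ⟨R2, hR2⟩ := HF.supp
    refine ⟨Hq.meas.sub HF.meas, ⟨M1 + M2, fun z => (norm_sub_le _ _).trans
      (add_le_add (hM1 z) (hM2 z))⟩, ⟨max R1 R2, fun z hz => ?_⟩⟩
    rw [hh]
    simp only
    rw [hR1 z ((le_max_left _ _).trans_lt hz), hR2 z ((le_max_right _ _).trans_lt hz), sub_zero]
  have e3 : D Λ f φ = Ev Λ (fun z => φ z * (f z - g z) + (Real.pi : ℂ)⁻¹ * K h z) := by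
    have c2 : Continuous (fun z : X => φ z * g z +
        (Real.pi : ℂ)⁻¹ * K (fun w => X.indicator (db (fun z => φ z * g z)) w) z) :=
      ((hFl.continuous).comp continuous_subtype_val).add
        (continuous_const.mul ((K_cont HF).comp continuous_subtype_val))
    rw [← sub_zero (D Λ f φ), ← hpom]
    unfold D
    rw [← Ev_sub Λ (cont_D hfc hφl) c2]
    refine Ev_congr Λ fun z _ => ?_
    rw [hh, K_sub Hq HF]
    ring
  rw [e3]
  -- pointwise closeness
  have hfg : ∀ z ∈ X, dist z a₀ ≤ r / 2 → infDist z E ≤ t → ‖f z - g z‖ ≤ (n + L) * t := by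
    intro z hz h1 h2
    obtain ⟨e, he, hze⟩ := hEc.exists_infDist_eq_dist hEne z
    rw [hze] at h2
    have h3 : dist e a₀ < r := by
      have := dist_triangle_left e a₀ z
      linarith
    have h4 : ‖f z - f e‖ ≤ n * dist z e := hn e he h3 z hz (by linarith)
    have h5 : ‖g z - g e‖ ≤ L * dist z e := by
      rw [← dist_eq_norm]; exact hg.dist_le_mul z e
    have h6 : f e = g e := hgA ⟨he, h3⟩
    have h7 : f z - g z = (f z - f e) - (g z - g e) := by rw [h6]; ring
    rw [h7]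
    refine (norm_sub_le _ _).trans ?_
    have h8 : (n + L : ℝ) * dist z e ≤ (n + L) * t := mul_le_mul_of_nonneg_left h2 (by positivity)
    linarith
  have hχ0 : ∀ z, t < infDist z E → χ =ᶠ[𝓝 z] fun _ => 0 := by
    intro z hz
    have : ∀ᶠ y in 𝓝 z, t < infDist y E :=
      ((continuous_infDist_pt E).tendsto z).eventually (lt_mem_nhds hz)
    filter_upwards [this] with y hy
    exact cut_zero hη (by rw [hd]; linarith)
  have hφ0 : ∀ z, r / 2 < dist z a₀ ∨ t < infDist z E → φ =ᶠ[𝓝 z] fun _ => 0 := by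
    intro z hz
    rcases hz with hz | hz
    · have : ∀ᶠ y in 𝓝 z, r / 2 < dist y a₀ :=
        ((continuous_id.dist continuous_const).tendsto z).eventually (lt_mem_nhds hz)
      filter_upwards [this] with y hy
      rw [hφ]
      simp only
      rw [hψ0 y hy.le, zero_mul]
    · filter_upwards [hχ0 z hz] with y hy
      rw [hφ]
      simp only
      rw [hy, mul_zero]
  have hh0 : ∀ z, r / 2 < dist z a₀ ∨ t < infDist z E → h z = 0 := by
    intro z hz
    have h1 := hφ0 z hz
    have h2 : db φ z = 0 := db_zero_of h1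
    have h3 : db (fun z => φ z * g z) z = 0 := by
      apply db_zero_of
      filter_upwards [h1] with y hy
      rw [hy, zero_mul]
    rw [hh]
    simp only [qq]
    by_cases hzX : z ∈ X
    · rw [indicator_of_mem hzX, indicator_of_mem hzX, h2, h3, mul_zero, sub_zero]
    · rw [indicator_of_notMem hzX, indicator_of_notMem hzX, sub_zero]
  have hae : ∀ᵐ z, z ∈ X → dist z a₀ ≤ r / 2 → infDist z E ≤ t →
      h z = (f z - g z) * db φ z - φ z * db g z := by
    filter_upwards [hφl.ae_differentiableAt (μ := volume), hg.ae_differentiableAt (μ := volume)]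
      with z d1 d2 hzX _ _
    rw [hh]
    simp only [qq]
    rw [indicator_of_mem hzX, indicator_of_mem hzX, db_mul d1 d2]
    ring
  have hhE : ∀ᵐ z, z ∈ X → dist z a₀ ≤ r / 2 → z ∈ E → h z = 0 := by
    filter_upwards [hae, hgae] with z h1 h2 hzX hza hzE
    have hzA : z ∈ A := ⟨hzE, mem_ball.2 (by linarith)⟩
    have h3 : infDist z E ≤ t := by rw [infDist_zero_of_mem hzE]; exact ht0.le
    rw [h1 hzX hza h3, h2 hzA, hgA hzA]
    ring
  have hhM : ∀ᵐ z, ‖h z‖ ≤ M' := by
    filter_upwards [hae] with z h1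
    by_cases hc : z ∈ X ∧ dist z a₀ ≤ r / 2 ∧ infDist z E ≤ t
    · obtain ⟨hzX, hza, hzE⟩ := hc
      rw [h1 hzX hza hzE]
      refine (norm_sub_le _ _).trans ?_
      rw [norm_mul, norm_mul]
      have k1 := hfg z hzX hza hzE
      have k2 : ‖db φ z‖ ≤ Mψ * (t / 2)⁻¹ + 1 * Cψ := by
        have := db_le hφl z
        push_cast at this
        exact this
      have k3 : ‖f z - g z‖ * ‖db φ z‖ ≤ ((n + L) * t) * (Mψ * (t / 2)⁻¹ + 1 * Cψ) :=
        mul_le_mul k1 k2 (norm_nonneg _) (by positivity)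
      have k4 : ‖φ z‖ * ‖db g z‖ ≤ Mψ * L := mul_le_mul (hφM z) (db_le hg z) (norm_nonneg _) Mψ.2
      have k5 : ((n + L : ℝ) * t) * (Mψ * (t / 2)⁻¹ + 1 * Cψ) =
          (n + L) * (2 * Mψ + t * Cψ) := by
        field_simp
      have k6 : (n + L : ℝ) * (2 * Mψ + t * Cψ) ≤ (n + L) * (2 * Mψ + 2 * Cψ) := by
        apply mul_le_mul_of_nonneg_left _ (by positivity)
        have : (0:ℝ) ≤ Cψ := Cψ.2
        nlinarith
      rw [hM']
      linarith
    · have : h z = 0 := by
        by_cases hzX : z ∈ X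
        · apply hh0
          by_contra h2
          push Not at h2
          exact hc ⟨hzX, h2.1, h2.2⟩
        · rw [hh]
          simp only [qq]
          rw [indicator_of_notMem hzX, indicator_of_notMem hzX, sub_zero]
      rw [this, norm_zero]
      exact hM'0
  have hhV : ∀ᵐ z, z ∉ Vn E R m → h z = 0 := by
    filter_upwards [hhE] with z h1 hzV
    by_cases hzX : z ∈ X
    · by_cases h2 : r / 2 < dist z a₀ ∨ t < infDist z E
      · exact hh0 z h2
      · push Not at h2
        by_cases hzE : z ∈ E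
        · exact h1 hzX h2.1 hzE
        · exact absurd ⟨hR hzX, hzE, h2.2⟩ hzV
    · rw [hh]
      simp only [qq]
      rw [indicator_of_notMem hzX, indicator_of_notMem hzX, sub_zero]
  have hKb := fun z => K_bound Hh hhM hM'0 (Vn_meas hE R m) (Vn_fin E R m) hhV hδ z
  have hfin : ∀ z ∈ X, ‖φ z * (f z - g z) + (Real.pi : ℂ)⁻¹ * K h z‖ ≤
      Mψ * ((n + L) * t) + Real.pi⁻¹ * (M' * (2 * Real.pi * δ + volume.real (Vn E R m) / δ)) := by
    intro z hz
    refine (norm_add_le _ _).trans (add_le_add ?_ ?_)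
    · rw [norm_mul]
      by_cases hc : r / 2 < dist z a₀ ∨ t < infDist z E
      · rw [(hφ0 z hc).self_of_nhds, norm_zero, zero_mul]
        positivity
      · push Not at hc
        exact mul_le_mul (hφM z) (hfg z hz hc.1 hc.2) (norm_nonneg _) Mψ.2
    · rw [norm_mul, norm_inv, Complex.norm_real, Real.norm_eq_abs, abs_of_pos hpi]
      exact mul_le_mul_of_nonneg_left (hKb z) (inv_pos.2 hpi).le
  refine (Ev_le Λ (by positivity) hfin).trans ?_
  have hl := hsm _ measureReal_nonneg (hN m (le_max_left _ _))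
  rw [mul_add]
  have e5 : ‖Λ‖ * (Real.pi⁻¹ * (M' * (2 * Real.pi * δ + volume.real (Vn E R m) / δ))) =
      ‖Λ‖ * (Real.pi⁻¹ * M') * (2 * Real.pi * δ + volume.real (Vn E R m) / δ) := by ring
  rw [e5]
  linarith

end Pool.Agent.V1173.RX
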