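import Pool.Agent.V1173.RX.Est

/-!
# Baire category and the conclusion
-/

set_option autoImplicit false
set_option linter.all false

open MeasureTheory Complex Filter Topology Metric Set
open scoped ComplexConjugate NNReal

namespace Pool.Agent.V1173.RX

/-- points with a Lipschitz estimate at scale `1 / (n + 1)` -/
def Pn (X : Set ℂ) (f : ℂ → ℂ) (n : ℕ) : Set ℂ :=
  {e | ∀ z ∈ X, dist z e < 1 / ((n : ℝ) + 1) → ‖f z - f e‖ ≤ ((n : ℝ) + 1) * dist z e}

theorem baire {X E : Set ℂ} {f : ℂ → ℂ} (hf : DifferentiableOn ℂ f X) (hE : IsClosed E)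
    (hEX : E ⊆ X) (hne : E.Nonempty) :
    ∃ n : ℕ, ∃ a ∈ E, ∃ r > 0, ∀ e ∈ E, dist e a < r → e ∈ Pn X f n := by
  have : CompleteSpace E := hE.completeSpace_coe
  have : Nonempty E := hne.to_subtype
  have hfE : Continuous (fun e : E => f e) :=
    continuousOn_iff_continuous_domRestrict.1 (hf.continuousOn.mono hEX)
  have hcl : ∀ n : ℕ, IsClosed {e : E | (e : ℂ) ∈ Pn X f n} := by
    intro n
    have h1 : {e : E | (e : ℂ) ∈ Pn X f n} = ⋂ z ∈ X,
        ({e : E | 1 / ((n : ℝ) + 1) ≤ dist z (e : ℂ)} ∪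
          {e : E | ‖f z - f e‖ ≤ ((n : ℝ) + 1) * dist z (e : ℂ)}) := by
      ext e
      simp only [Pn, mem_setOf_eq, mem_iInter, mem_union]
      constructor
      · intro h z hz
        by_cases hc : dist z (e : ℂ) < 1 / ((n : ℝ) + 1)
        · exact Or.inr (h z hz hc)
        · exact Or.inl (not_lt.1 hc)
      · intro h z hz hc
        rcases h z hz with h1 | h1
        · exact absurd h1 (not_le.2 hc)
        · exact h1
    rw [h1]
    refine isClosed_biInter fun z _ => ?_
    have c1 : Continuous (fun e : E => dist z (e : ℂ)) := continuous_const.dist continuous_subtype_val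
    exact (isClosed_le continuous_const c1).union
      (isClosed_le (continuous_const.sub hfE).norm (continuous_const.mul c1))
  have hcov : ⋃ n : ℕ, {e : E | (e : ℂ) ∈ Pn X f n} = univ := by
    rw [eq_univ_iff_forall]
    intro e
    rw [mem_iUnion]
    have h1 := (hf e (hEX e.2)).isBigO_sub
    obtain ⟨C, hC⟩ := h1.bound
    obtain ⟨s, hs, hsC⟩ := Metric.mem_nhdsWithin_iff.1 hC
    obtain ⟨n, hn⟩ := exists_nat_gt (max C (1 / s))
    refine ⟨n, fun z hz hzd => ?_⟩
    have hn1 : C < n := (le_max_left _ _).trans_lt hn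
    have hn2 : 1 / s < n := (le_max_right _ _).trans_lt hn
    have h2 : 1 / ((n : ℝ) + 1) < s := by
      rw [one_div_lt (by positivity) hs]
      linarith
    have h3 := hsC ⟨mem_ball.2 (hzd.trans h2), hz⟩
    simp only [mem_setOf_eq] at h3
    refine h3.trans ?_
    rw [← dist_eq_norm]
    exact mul_le_mul_of_nonneg_right (by linarith) dist_nonneg
  obtain ⟨n, hn⟩ := nonempty_interior_of_iUnion_of_closed hcl hcov
  obtain ⟨a, ha⟩ := hn
  rw [mem_interior_iff_mem_nhds, Metric.mem_nhds_iff] at ha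
  obtain ⟨r, hr, hrs⟩ := ha
  exact ⟨n, a, a.2, r, hr, fun e he hea => hrs (show (⟨e, he⟩ : E) ∈ ball a r from hea)⟩

theorem main {X : Set ℂ} [CompactSpace X] (hne : X.Nonempty) {Λ : C(X, ℂ) →L[ℂ] ℂ} (hΛ : Ann Λ)
    {f : ℂ → ℂ} (hf : DifferentiableOn ℂ f X) : Ev Λ f = 0 := by
  have hX : IsCompact X := isCompact_iff_compactSpace.2 ‹_›
  have hfc := hf.continuousOn
  set E : Set ℂ := {a | ¬ ∃ r > 0, Gd Λ f a r} with hEd
  have hE : IsClosed E := by
    rw [← isOpen_compl_iff, Metric.isOpen_iff]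
    intro a ha
    have ha' : ∃ r > 0, Gd Λ f a r := by
      by_contra h
      exact ha h
    obtain ⟨r, hr, hG⟩ := ha'
    refine ⟨r / 2, half_pos hr, fun b hb => ?_⟩
    intro hbE
    apply hbE
    refine ⟨r / 2, half_pos hr, fun ψ hψ h0 => hG ψ hψ fun z hz => h0 z ?_⟩
    have h1 := dist_triangle z b a
    have h2 := mem_ball.1 hb
    linarith
  have hgood : ∀ a, a ∉ E → ∃ r > 0, Gd Λ f a r := by
    intro a ha
    by_contra h
    exact ha h
  have hEX : E ⊆ X := by
    intro a ha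
    by_contra haX
    apply ha
    obtain ⟨r, hr, hr2⟩ := Metric.isOpen_iff.1 hX.isClosed.isOpen_compl a haX
    refine ⟨r / 2, half_pos hr, fun ψ hψ h0 => ?_⟩
    have hfar : ∀ z ∈ X, r / 2 < dist z a := by
      intro z hz
      by_contra h
      have : z ∈ ball a r := mem_ball.2 (by linarith [not_lt.1 h])
      exact hr2 this hz
    refine D_zero_of Λ (fun z hz => h0 z (hfar z hz).le) (fun z hz => db_zero_of ?_)
    have : ∀ᶠ y in 𝓝 z, r / 2 < dist y a :=
      ((continuous_id.dist continuous_const).tendsto z).eventually (lt_mem_nhds (hfar z hz))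
    filter_upwards [this] with y hy
    exact h0 y hy.le
  have hempty : E = ∅ := by
    by_contra hEne
    have hEne' : E.Nonempty := nonempty_iff_ne_empty.2 hEne
    obtain ⟨n, a, ha, r, hr, hrn⟩ := baire hf hE hEX hEne'
    set ρ : ℝ := 1 / ((n : ℝ) + 1) with hρ
    have hρ0 : 0 < ρ := by positivity
    set r' : ℝ := min r (ρ / 2) with hr'
    have hr'0 : 0 < r' := lt_min hr (by positivity)
    have h1 : 2 * r' ≤ ρ := by
      have := min_le_right r (ρ / 2)
      linarith
    have h2 := est hne hΛ hf hE hEX hgood ha hr'0 (n := (n : ℝ≥0) + 1) h1 (by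
      intro e he hea z hz hze
      have := hrn e he (hea.trans_le (min_le_left _ _)) z hz hze
      push_cast
      exact this)
    exact ha ⟨r' / 2, half_pos hr'0, h2⟩
  obtain ⟨R, hR⟩ := hX.isBounded.subset_closedBall 0
  set d : ℂ → ℝ := fun z => infDist z X with hd
  have hdl : LipschitzWith 1 d := lipschitz_infDist_pt X
  set χ := cut d 1 with hχ
  have hχl := cut_lip hdl one_pos
  have hχs : HasCompactSupport χ := by
    apply HasCompactSupport.of_support_subset_isCompact (isCompact_closedBall (0:ℂ) (R + 2))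
    intro z hz
    by_contra hzR
    apply hz
    refine cut_zero one_pos ?_
    rw [mem_closedBall, not_le, dist_zero_right] at hzR
    rw [hd]
    simp only [mul_one]
    rw [Metric.le_infDist hne]
    intro y hy
    have h1 := hR hy
    rw [mem_closedBall, dist_zero_right] at h1
    have h2 := norm_sub_norm_le z y
    rw [dist_eq_norm]
    linarith
  have hχt : Tst χ := ⟨_, hχl, hχs⟩
  have h1 : D Λ f χ = 0 := by
    refine glue Λ hfc (T := tsupport χ) hχs (fun a _ => hgood a (by rw [hempty]; exact notMem_empty a))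
      hχt fun z hz => image_eq_zero_of_notMem_tsupport hz
  have hχ1 : ∀ z ∈ X, χ =ᶠ[𝓝 z] fun _ => 1 := by
    intro z hz
    have : ∀ᶠ y in 𝓝 z, infDist y X < 1 :=
      ((continuous_infDist_pt X).tendsto z).eventually
        (gt_mem_nhds (by rw [infDist_zero_of_mem hz]; exact one_pos))
    filter_upwards [this] with y hy
    exact cut_one one_pos hy.le
  have hq : qq X f χ = fun _ => 0 := by
    funext w
    unfold qq
    by_cases hw : w ∈ X
    · rw [indicator_of_mem hw, db_congr (hχ1 w hw)]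
      unfold db
      simp
    · rw [indicator_of_notMem hw]
  rw [← h1]
  unfold D
  refine Ev_congr Λ fun z hz => ?_
  rw [hq, (hχ1 z hz).self_of_nhds]
  unfold K
  simp

theorem hb {E : Type*} [NormedAddCommGroup E] [NormedSpace ℂ E] [NormedSpace ℝ E]
    [IsScalarTower ℝ ℂ E] (S : Submodule ℂ E) (x : E) (hx : x ∉ closure (S : Set E)) :
    ∃ Λ : E →L[ℂ] ℂ, (∀ a ∈ S, Λ a = 0) ∧ Λ x ≠ 0 := by
  have hconv : Convex ℝ (closure (S : Set E)) := by
    have h1 : Convex ℝ ((S.restrictScalars ℝ : Submodule ℝ E) : Set E) := Submodule.convex _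
    exact h1.closure
  obtain ⟨Λ, c, hc, hcx⟩ := RCLike.geometric_hahn_banach_closed_point (𝕜 := ℂ) hconv
    isClosed_closure hx
  have h0 : 0 < c := by
    have h1 := hc 0 (subset_closure S.zero_mem)
    rw [map_zero] at h1
    simpa using h1
  refine ⟨Λ, fun a ha => ?_, ?_⟩
  · by_contra hne
    have hpos : 0 < ‖Λ a‖ ^ 2 := by
      have := norm_pos_iff.2 hne
      positivity
    have h1 := hc (((c / ‖Λ a‖ ^ 2 : ℝ) : ℂ) • ((starRingEnd ℂ) (Λ a) • a))
      (subset_closure (S.smul_mem _ (S.smul_mem _ ha)))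
    have e1 : Λ (((c / ‖Λ a‖ ^ 2 : ℝ) : ℂ) • ((starRingEnd ℂ) (Λ a) • a)) =
        ((c / ‖Λ a‖ ^ 2 : ℝ) : ℂ) * ((starRingEnd ℂ) (Λ a) * Λ a) := by
      rw [map_smul, map_smul, smul_eq_mul, smul_eq_mul]
    rw [e1] at h1
    have h2 : (starRingEnd ℂ) (Λ a) * Λ a = ((‖Λ a‖ ^ 2 : ℝ) : ℂ) := by
      rw [← Complex.normSq_eq_conj_mul_self, Complex.normSq_eq_norm_sq]
    rw [h2, ← Complex.ofReal_mul, div_mul_cancel₀ _ hpos.ne'] at h1
    have h3 : RCLike.re ((c : ℝ) : ℂ) = c := Complex.ofReal_re c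
    rw [h3] at h1
    exact lt_irrefl _ h1
  · intro hx0
    rw [hx0, map_zero] at hcx
    linarith

/-- functions differentiable on a compact plane set are uniform limits of rational functions -/
theorem rat (X : Set ℂ) (hX : IsCompact X) (f : ℂ → ℂ) (hf : DifferentiableOn ℂ f X) (ε : ℝ)
    (hε : 0 < ε) : ∃ p q : Polynomial ℂ, (∀ z ∈ X, q.eval z ≠ 0) ∧
      ∀ z ∈ X, ‖f z - p.eval z / q.eval z‖ < ε := by
  rcases X.eq_empty_or_nonempty with rfl | hne
  · exact ⟨0, 1, fun z hz => absurd hz (notMem_empty z), fun z hz => absurd hz (notMem_empty z)⟩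
  have : CompactSpace X := isCompact_iff_compactSpace.1 hX
  obtain ⟨G, hG⟩ : ∃ G : C(X, ℂ), ∀ z : X, G z = f z :=
    ⟨⟨fun z => f z, continuousOn_iff_continuous_domRestrict.1 hf.continuousOn⟩, fun z => rfl⟩
  set V : Submodule ℂ C(X, ℂ) :=
    Submodule.span ℂ {k | ∃ w : ℂ, w ∉ X ∧ ∀ z : X, k z = (w - (z : ℂ))⁻¹} with hV
  have hrat : ∀ k ∈ V, ∃ p q : Polynomial ℂ, (∀ z ∈ X, q.eval z ≠ 0) ∧
      ∀ z : X, k z = p.eval (z : ℂ) / q.eval (z : ℂ) := by
    intro k hk
    induction hk using Submodule.span_induction with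
    | mem k hk =>
      obtain ⟨w, hw, hk⟩ := hk
      refine ⟨1, Polynomial.C w - Polynomial.X, fun z hz h => ?_, fun z => ?_⟩
      · simp only [Polynomial.eval_sub, Polynomial.eval_C, Polynomial.eval_X] at h
        rw [sub_eq_zero] at h
        exact hw (h ▸ hz)
      · rw [hk z]
        simp
    | zero => exact ⟨0, 1, fun z _ => by simp, fun z => by simp⟩
    | add k l _ _ hk hl =>
      obtain ⟨p, q, hq, hk⟩ := hk
      obtain ⟨p', q', hq', hl⟩ := hl
      refine ⟨p * q' + p' * q, q * q', fun z hz => ?_, fun z => ?_⟩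
      · rw [Polynomial.eval_mul]
        exact mul_ne_zero (hq z hz) (hq' z hz)
      · rw [ContinuousMap.add_apply, hk z, hl z]
        have h1 := hq z z.2
        have h2 := hq' z z.2
        simp only [Polynomial.eval_add, Polynomial.eval_mul]
        field_simp
    | smul c k _ hk =>
      obtain ⟨p, q, hq, hk⟩ := hk
      refine ⟨Polynomial.C c * p, q, hq, fun z => ?_⟩
      rw [ContinuousMap.smul_apply, hk z, smul_eq_mul]
      simp only [Polynomial.eval_mul, Polynomial.eval_C]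
      ring
  by_cases hcl : G ∈ closure (V : Set C(X, ℂ))
  · obtain ⟨b, hb, hbd⟩ := Metric.mem_closure_iff.1 hcl ε hε
    obtain ⟨p, q, hq, hk⟩ := hrat b hb
    refine ⟨p, q, hq, fun z hz => ?_⟩
    rw [dist_eq_norm] at hbd
    refine lt_of_le_of_lt ?_ hbd
    have h1 := ContinuousMap.norm_coe_le_norm (G - b) ⟨z, hz⟩
    rw [ContinuousMap.sub_apply, hG, hk] at h1
    exact h1
  · exfalso
    obtain ⟨Λ, hΛ, hne'⟩ : ∃ Λ : C(X, ℂ) →L[ℂ] ℂ, (∀ a ∈ V, Λ a = 0) ∧ Λ G ≠ 0 := hb V G hcl
    apply hne'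
    have h1 : Ann Λ := fun w hw k hk => hΛ k (Submodule.subset_span ⟨w, hw, hk⟩)
    rw [← Ev_of Λ (u := f) G hG]
    exact main hne h1 hf

end Pool.Agent.V1173.RX
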