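import Pool.Agent.V1173.RX.Pom

/-!
# Functionals annihilating the Cauchy kernels
-/

set_option autoImplicit false
set_option linter.all false

open MeasureTheory Complex Filter Topology Metric Set
open scoped ComplexConjugate NNReal

namespace Pool.Agent.V1173.RX

section ev

variable {X : Set ℂ} [CompactSpace X]

open Classical in
/-- evaluation of a functional on the restriction of `u` to `X` -/
noncomputable def Ev (Λ : C(X, ℂ) →L[ℂ] ℂ) (u : ℂ → ℂ) : ℂ :=
  if h : Continuous (fun z : X => u z) then Λ ⟨fun z : X => u z, h⟩ else 0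

theorem Ev_of (Λ : C(X, ℂ) →L[ℂ] ℂ) {u : ℂ → ℂ} (k : C(X, ℂ)) (hk : ∀ z : X, k z = u z) :
    Ev Λ u = Λ k := by
  have h : Continuous (fun z : X => u z) := by
    have : (fun z : X => u z) = k := by funext z; exact (hk z).symm
    rw [this]; exact k.continuous
  unfold Ev
  rw [dif_pos h]
  congr 1
  ext z
  exact (hk z).symm

theorem Ev_congr (Λ : C(X, ℂ) →L[ℂ] ℂ) {u v : ℂ → ℂ} (h : ∀ z ∈ X, u z = v z) :
    Ev Λ u = Ev Λ v := by
  have e : (fun z : X => u z) = (fun z : X => v z) := by funext z; exact h z z.2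
  by_cases h' : Continuous (fun z : X => v z)
  · rw [Ev_of Λ (u := u) ⟨_, h'⟩ (fun z => (h z z.2).symm), Ev_of Λ (u := v) ⟨_, h'⟩ (fun _ => rfl)]
  · have h'' : ¬ Continuous (fun z : X => u z) := by rw [e]; exact h'
    unfold Ev
    rw [dif_neg h', dif_neg h'']

theorem Ev_add (Λ : C(X, ℂ) →L[ℂ] ℂ) {u v : ℂ → ℂ} (hu : Continuous (fun z : X => u z))
    (hv : Continuous (fun z : X => v z)) :
    Ev Λ (fun z => u z + v z) = Ev Λ u + Ev Λ v := by
  rw [Ev_of Λ (u := u) ⟨_, hu⟩ (fun _ => rfl), Ev_of Λ (u := v) ⟨_, hv⟩ (fun _ => rfl), ← map_add]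
  exact Ev_of Λ _ (fun _ => rfl)

theorem Ev_sub (Λ : C(X, ℂ) →L[ℂ] ℂ) {u v : ℂ → ℂ} (hu : Continuous (fun z : X => u z))
    (hv : Continuous (fun z : X => v z)) :
    Ev Λ (fun z => u z - v z) = Ev Λ u - Ev Λ v := by
  rw [Ev_of Λ (u := u) ⟨_, hu⟩ (fun _ => rfl), Ev_of Λ (u := v) ⟨_, hv⟩ (fun _ => rfl), ← map_sub]
  exact Ev_of Λ _ (fun _ => rfl)

theorem Ev_mul (Λ : C(X, ℂ) →L[ℂ] ℂ) {u : ℂ → ℂ} (c : ℂ) (hu : Continuous (fun z : X => u z)) :
    Ev Λ (fun z => c * u z) = c * Ev Λ u := by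
  rw [Ev_of Λ (u := u) ⟨_, hu⟩ (fun _ => rfl), ← smul_eq_mul, ← map_smul]
  exact Ev_of Λ _ (fun _ => rfl)

theorem Ev_le (Λ : C(X, ℂ) →L[ℂ] ℂ) {u : ℂ → ℂ} {C : ℝ} (hC : 0 ≤ C) (h : ∀ z ∈ X, ‖u z‖ ≤ C) :
    ‖Ev Λ u‖ ≤ ‖Λ‖ * C := by
  unfold Ev
  split_ifs with hc
  · refine (Λ.le_opNorm _).trans (mul_le_mul_of_nonneg_left ?_ (norm_nonneg _))
    rw [ContinuousMap.norm_le _ hC]
    exact fun z => h z z.2
  · rw [norm_zero]
    positivity

/-- the functional kills all Cauchy kernels with pole off `X` -/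
def Ann (Λ : C(X, ℂ) →L[ℂ] ℂ) : Prop :=
  ∀ w : ℂ, w ∉ X → ∀ k : C(X, ℂ), (∀ z : X, k z = (w - (z : ℂ))⁻¹) → Λ k = 0

theorem cz {Λ : C(X, ℂ) →L[ℂ] ℂ} (hΛ : Ann Λ) {D : ℂ → ℂ} (hD : AEStronglyMeasurable D volume)
    {M : ℝ} (hM : ∀ z, ‖D z‖ ≤ M) {E : Set ℂ} (hE : IsCompact E) (hEX : Disjoint E X) :
    Ev Λ (fun z => ∫ w in E, D w / (w - z)) = 0 := by
  have hne : ∀ (w : ℂ) (z : X), w ∈ E → w - (z : ℂ) ≠ 0 := by
    intro w z hw h0
    rw [sub_eq_zero] at h0
    exact Set.disjoint_left.1 hEX hw (h0 ▸ z.2)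
  obtain ⟨φ, hφ⟩ : ∃ φ : C(E × X, ℂ), ∀ p, φ p = ((p.1 : ℂ) - p.2)⁻¹ := by
    refine ⟨⟨fun p => ((p.1 : ℂ) - p.2)⁻¹, ?_⟩, fun p => rfl⟩
    refine Continuous.inv₀ ?_ (fun p => hne p.1 p.2 p.1.2)
    exact (continuous_subtype_val.comp continuous_fst).sub
        (continuous_subtype_val.comp continuous_snd)
  classical
  obtain ⟨G, hG⟩ : ∃ G : ℂ → C(X, ℂ), ∀ (w : ℂ) (h : w ∈ E), G w = φ.curry ⟨w, h⟩ :=
    ⟨fun w => if h : w ∈ E then φ.curry ⟨w, h⟩ else 0, fun w h => dif_pos h⟩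
  have hGc : ContinuousOn G E := by
    rw [continuousOn_iff_continuous_domRestrict]
    have h1 : E.domRestrict G = φ.curry := by
      funext w
      exact hG w w.2
    rw [h1]
    exact φ.curry.continuous
  have hGi : IntegrableOn G E volume := hGc.integrableOn_compact hE
  have hGv : ∀ w ∈ E, ∀ z : X, G w z = (w - (z : ℂ))⁻¹ := by
    intro w hw z
    rw [hG w hw, ContinuousMap.curry_apply, hφ]
  have hDG : IntegrableOn (fun w => D w • G w) E volume := by
    have hm : MemLp D ⊤ (volume.restrict E) :=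
      memLp_top_of_bound hD.restrict M (Eventually.of_forall hM)
    exact Integrable.smul_of_top_right hGi hm
  have hval : ∀ z : X, (∫ w in E, D w • G w) z = ∫ w in E, D w / (w - (z : ℂ)) := by
    intro z
    have h1 : (∫ w in E, D w • G w) z = ∫ w in E, (D w • G w) z :=
      ((ContinuousMap.evalCLM ℂ z).integral_comp_comm hDG).symm
    rw [h1]
    refine MeasureTheory.setIntegral_congr_fun hE.measurableSet fun w hw => ?_
    change D w • (G w z) = _
    rw [hGv w hw, smul_eq_mul, div_eq_mul_inv]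
  rw [Ev_of Λ (∫ w in E, D w • G w) hval, ← Λ.integral_comp_comm hDG]
  refine MeasureTheory.setIntegral_eq_zero_of_forall_eq_zero fun w hw => ?_
  have hwX : w ∉ X := Set.disjoint_left.1 hEX hw
  rw [map_smul, hΛ w hwX (G w) (hGv w hw), smul_zero]

end ev

/-- a thin neighbourhood of `Y` without `Y`, in a big disc -/
def Vn (Y : Set ℂ) (R : ℝ) (n : ℕ) : Set ℂ :=
  {z | z ∈ closedBall (0:ℂ) R ∧ z ∉ Y ∧ infDist z Y ≤ 1 / ((n : ℝ) + 1)}

theorem Vn_meas {Y : Set ℂ} (hY : IsClosed Y) (R : ℝ) (n : ℕ) : MeasurableSet (Vn Y R n) := by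
  have h1 : MeasurableSet {z : ℂ | infDist z Y ≤ 1 / ((n : ℝ) + 1)} :=
    (isClosed_le (continuous_infDist_pt Y) continuous_const).measurableSet
  exact measurableSet_closedBall.inter (hY.measurableSet.compl.inter h1)

theorem Vn_fin (Y : Set ℂ) (R : ℝ) (n : ℕ) : volume (Vn Y R n) ≠ ⊤ :=
  ((measure_mono (fun z hz => hz.1)).trans_lt measure_closedBall_lt_top).ne

theorem Vn_small {Y : Set ℂ} (hY : IsClosed Y) (hne : Y.Nonempty) (R : ℝ) {η : ℝ} (hη : 0 < η) :
    ∃ N : ℕ, ∀ n ≥ N, volume.real (Vn Y R n) ≤ η := by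
  have h1 : Tendsto (fun n => volume (Vn Y R n)) atTop (𝓝 (volume (⋂ n, Vn Y R n))) := by
    apply tendsto_measure_iInter_atTop (fun n => (Vn_meas hY R n).nullMeasurableSet)
    · intro m n hmn z hz
      refine ⟨hz.1, hz.2.1, hz.2.2.trans ?_⟩
      have : (m : ℝ) ≤ n := by exact_mod_cast hmn
      exact one_div_le_one_div_of_le (by positivity) (by linarith)
    · exact ⟨0, Vn_fin Y R 0⟩
  have h2 : ⋂ n, Vn Y R n = ∅ := by
    rw [eq_empty_iff_forall_notMem]
    intro z hz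
    rw [mem_iInter] at hz
    have h3 : 0 < infDist z Y := by
      exact (hY.notMem_iff_infDist_pos hne).1 (hz 0).2.1
    obtain ⟨n, hn⟩ := exists_nat_one_div_lt h3
    exact absurd (hz n).2.2 (not_le.2 hn)
  rw [h2, measure_empty] at h1
  have h3 : Tendsto (fun n => volume.real (Vn Y R n)) atTop (𝓝 0) := by
    have := (ENNReal.tendsto_toReal ENNReal.zero_ne_top).comp h1
    rw [ENNReal.toReal_zero] at this
    exact this
  have h4 := h3.eventually (ge_mem_nhds hη)
  exact eventually_atTop.1 h4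

theorem small {M ε : ℝ} (hM : 0 ≤ M) (hε : 0 < ε) : ∃ δ > 0, ∃ η > 0, ∀ v : ℝ, 0 ≤ v → v ≤ η →
    M * (2 * Real.pi * δ + v / δ) ≤ ε := by
  have hp := Real.pi_pos
  have h0 : 0 < M * (2 * Real.pi) + M + 1 := by positivity
  set δ : ℝ := ε / (M * (2 * Real.pi) + M + 1) with hδ
  have hδ0 : 0 < δ := div_pos hε h0
  refine ⟨δ, hδ0, δ ^ 2, by positivity, fun v hv hv2 => ?_⟩
  have h1 : v / δ ≤ δ := by
    rw [div_le_iff₀ hδ0, ← sq]; exact hv2
  calc M * (2 * Real.pi * δ + v / δ) ≤ M * (2 * Real.pi * δ + δ) :=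
        mul_le_mul_of_nonneg_left (by linarith) hM
    _ ≤ (M * (2 * Real.pi) + M + 1) * δ := by nlinarith
    _ = ε := by rw [hδ]; field_simp

section ev2

variable {X : Set ℂ} [CompactSpace X]

/-- densities vanishing on `X` are invisible -/
theorem cz_den (hne : X.Nonempty) {Λ : C(X, ℂ) →L[ℂ] ℂ} (hΛ : Ann Λ) {h : ℂ → ℂ} (H : Den h)
    (h0 : ∀ z ∈ X, h z = 0) : Ev Λ (K h) = 0 := by
  have hX : IsCompact X := isCompact_iff_compactSpace.2 ‹_›
  obtain ⟨M, hM⟩ := H.bdd
  obtain ⟨R, hR⟩ := H.supp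
  have hM0 := den_nonneg hM
  rw [← norm_le_zero_iff]
  apply le_of_forall_pos_le_add
  intro ε hε
  rw [zero_add]
  obtain ⟨δ, hδ, η, hη, hsm⟩ := small (M := ‖Λ‖ * M) (by positivity) hε
  obtain ⟨N, hN⟩ := Vn_small hX.isClosed hne R hη
  set E : Set ℂ := {z | z ∈ closedBall (0:ℂ) R ∧ 1 / ((N : ℝ) + 1) ≤ infDist z X} with hEd
  have hE : IsCompact E :=
    (isCompact_closedBall (0:ℂ) R).inter_right
      (isClosed_le continuous_const (continuous_infDist_pt X))
  have hEX : Disjoint E X := by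
    rw [Set.disjoint_left]
    intro z hz hzX
    have := hz.2
    rw [infDist_zero_of_mem hzX] at this
    have h1 : (0:ℝ) < 1 / ((N : ℝ) + 1) := by positivity
    linarith
  have hEm : MeasurableSet E := hE.measurableSet
  have e1 : Ev Λ (fun z => ∫ w in E, h w / (w - z)) = 0 := cz hΛ H.meas hM hE hEX
  have Hi : Den (fun z => E.indicator h z) := by
    refine ⟨H.meas.indicator hEm, ⟨M, fun z => ?_⟩, ⟨R, fun z hz => ?_⟩⟩
    · exact (norm_indicator_le_norm_self _ _).trans (hM z)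
    · by_cases hz' : z ∈ E
      · rw [indicator_of_mem hz', hR z hz]
      · rw [indicator_of_notMem hz']
  have e2 : ∀ z, ∫ w in E, h w / (w - z) = K (fun z => E.indicator h z) z := by
    intro z
    unfold K
    rw [← integral_indicator hEm]
    congr 1
    funext w
    change _ = E.indicator h w / (w - z)
    by_cases hw : w ∈ E
    · rw [indicator_of_mem hw, indicator_of_mem hw]
    · rw [indicator_of_notMem hw, indicator_of_notMem hw, zero_div]
  have e3 : Ev Λ (K (fun z => E.indicator h z)) = 0 := by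
    rw [← e1]; exact Ev_congr Λ fun z _ => (e2 z).symm
  have Hs : Den (fun z => h z - E.indicator h z) := by
    refine ⟨H.meas.sub Hi.meas, ⟨M, fun z => ?_⟩, ⟨R, fun z hz => ?_⟩⟩
    · by_cases hz : z ∈ E
      · rw [indicator_of_mem hz, sub_self, norm_zero]; exact hM0
      · rw [indicator_of_notMem hz, sub_zero]; exact hM z
    · rw [hR z hz, zero_sub, neg_eq_zero]
      by_cases hz' : z ∈ E
      · rw [indicator_of_mem hz', hR z hz]
      · rw [indicator_of_notMem hz']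
  have e4 : Ev Λ (K h) = Ev Λ (K (fun z => h z - E.indicator h z)) := by
    rw [← sub_zero (Ev Λ (K h)), ← e3, ← Ev_sub Λ ((K_cont H).comp continuous_subtype_val)
      ((K_cont Hi).comp continuous_subtype_val)]
    exact Ev_congr Λ fun z _ => (K_sub H Hi z).symm
  rw [e4]
  have hb : ∀ z, ‖K (fun z => h z - E.indicator h z) z‖ ≤
      M * (2 * Real.pi * δ + volume.real (Vn X R N) / δ) := by
    intro z
    refine K_bound Hs (Eventually.of_forall fun z => ?_) hM0 (Vn_meas hX.isClosed R N)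
      (Vn_fin X R N) (Eventually.of_forall fun z hz => ?_) hδ z
    · by_cases hz : z ∈ E
      · rw [indicator_of_mem hz, sub_self, norm_zero]; exact hM0
      · rw [indicator_of_notMem hz, sub_zero]; exact hM z
    · by_cases hz1 : z ∈ E
      · rw [indicator_of_mem hz1, sub_self]
      · rw [indicator_of_notMem hz1, sub_zero]
        by_cases hz2 : z ∈ X
        · exact h0 z hz2
        · apply hR
          by_contra hz3
          apply hz
          have hz4 : z ∈ closedBall (0:ℂ) R := by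
            rw [mem_closedBall, dist_zero_right]; exact not_lt.1 hz3
          refine ⟨hz4, hz2, ?_⟩
          by_contra hz5
          exact hz1 ⟨hz4, (not_le.1 hz5).le⟩
  refine (Ev_le Λ (by positivity) fun z _ => hb z).trans ?_
  rw [← mul_assoc]
  exact hsm _ measureReal_nonneg (hN N le_rfl)

/-- the Pompeiu formula seen from `X` -/
theorem pomX (hne : X.Nonempty) {Λ : C(X, ℂ) →L[ℂ] ℂ} (hΛ : Ann Λ) {F : ℂ → ℂ} {A : ℝ≥0}
    (hF : LipschitzWith A F) (hs : HasCompactSupport F) :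
    Ev Λ (fun z => F z + (Real.pi : ℂ)⁻¹ * K (fun w => X.indicator (db F) w) z) = 0 := by
  have hX : IsCompact X := isCompact_iff_compactSpace.2 ‹_›
  have H := den_db hF hs
  have hmk : ∀ S : Set ℂ, MeasurableSet S → Den (fun w => S.indicator (db F) w) := by
    intro S hS
    obtain ⟨M, hM⟩ := H.bdd
    obtain ⟨R, hR⟩ := H.supp
    refine ⟨H.meas.indicator hS, ⟨M, fun z => (norm_indicator_le_norm_self _ _).trans (hM z)⟩,
      ⟨R, fun z hz => ?_⟩⟩
    by_cases hz' : z ∈ S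
    · rw [indicator_of_mem hz', hR z hz]
    · rw [indicator_of_notMem hz']
  have H1 := hmk X hX.measurableSet
  have H2 := hmk Xᶜ hX.measurableSet.compl
  have e1 : Ev Λ (K (fun w => Xᶜ.indicator (db F) w)) = 0 :=
    cz_den hne hΛ H2 fun z hz => indicator_of_notMem (fun h : z ∈ Xᶜ => h hz) _
  have e2 : ∀ z, F z + (Real.pi : ℂ)⁻¹ * K (fun w => X.indicator (db F) w) z =
      (-(Real.pi : ℂ)⁻¹) * K (fun w => Xᶜ.indicator (db F) w) z := by
    intro z
    have hp : (Real.pi : ℂ) ≠ 0 := by exact_mod_cast Real.pi_ne_zero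
    have h1 := pompeiu hF hs z
    have h2 : K (db F) z = K (fun w => X.indicator (db F) w) z + K (fun w => Xᶜ.indicator (db F) w) z := by
      rw [← K_add H1 H2]
      congr 1
      funext w
      exact (indicator_self_add_compl_apply X (db F) w).symm
    rw [h2] at h1
    field_simp
    linear_combination h1
  rw [Ev_congr Λ fun z _ => e2 z, Ev_mul Λ _ ((K_cont H2).comp continuous_subtype_val), e1, mul_zero]

end ev2

end Pool.Agent.V1173.RX
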