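import Mathlib

/-!
# Cauchy potentials of bounded densities with bounded support
-/

set_option autoImplicit false
set_option linter.all false

open MeasureTheory Complex Filter Topology Metric Set
open scoped ComplexConjugate

namespace Pool.Agent.V1173.RX

/-- bounded measurable densities with bounded support -/
structure Den (h : ℂ → ℂ) : Prop where
  meas : AEStronglyMeasurable h volume
  bdd : ∃ M : ℝ, ∀ z, ‖h z‖ ≤ M
  supp : ∃ R : ℝ, ∀ z, R < ‖z‖ → h z = 0

/-- the potential -/
noncomputable def K (h : ℂ → ℂ) (w : ℂ) : ℂ := ∫ z, h z / (z - w)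

theorem kern (w : ℂ) {δ : ℝ} (hδ : 0 < δ) :
    Integrable (fun z : ℂ => (ball w δ).indicator (fun z => ‖z - w‖⁻¹) z) ∧
    ∫ z : ℂ, (ball w δ).indicator (fun z => ‖z - w‖⁻¹) z = 2 * Real.pi * δ := by
  set f : ℝ → ℝ := fun t => (Iio δ).indicator (fun t => t⁻¹) t with hf
  have h1 := MeasureTheory.integrable_fun_norm_addHaar (E := ℂ) (F := ℝ) MeasureTheory.volume
    (f := f)
  have h2 := MeasureTheory.integral_fun_norm_addHaar (E := ℂ) (F := ℝ) MeasureTheory.volume f
  rw [Complex.finrank_real_complex] at h1 h2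
  simp only [Nat.reduceSub, pow_one, smul_eq_mul] at h1 h2
  have e1 : EqOn (fun y : ℝ => y * f y) (fun y => (Iio δ).indicator (fun _ => (1 : ℝ)) y) (Ioi 0) := by
    intro y hy
    have hy' : (0 : ℝ) < y := hy
    change y * f y = _
    rw [hf]
    simp only [indicator]
    split_ifs with h
    · exact mul_inv_cancel₀ hy'.ne'
    · simp
  have r1 : IntegrableOn (fun y : ℝ => (Iio δ).indicator (fun _ => (1 : ℝ)) y) (Ioi 0) := by
    rw [IntegrableOn, integrable_indicator_iff measurableSet_Iio, IntegrableOn,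
      Measure.restrict_restrict measurableSet_Iio]
    rw [inter_comm, Ioi_inter_Iio]
    exact integrableOn_const measure_Ioo_lt_top.ne
  have r2 : ∫ y in Ioi (0:ℝ), (Iio δ).indicator (fun _ => (1 : ℝ)) y = δ := by
    rw [integral_indicator measurableSet_Iio, Measure.restrict_restrict measurableSet_Iio]
    rw [inter_comm, Ioi_inter_Iio]
    simp [hδ.le]
  have i1 : Integrable (fun z : ℂ => f ‖z‖) := by
    apply h1.2
    exact r1.congr_fun e1.symm measurableSet_Ioi
  have i2 : ∫ z : ℂ, f ‖z‖ = 2 * Real.pi * δ := by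
    rw [h2, setIntegral_congr_fun measurableSet_Ioi e1, r2]
    have : volume.real (ball (0:ℂ) 1) = Real.pi := by
      rw [Measure.real, Complex.volume_ball]
      simp
    rw [this]
    simp
    ring
  have e2 : (fun z : ℂ => (ball w δ).indicator (fun z => ‖z - w‖⁻¹) z) = fun z => f ‖z - w‖ := by
    funext z
    rw [hf]
    simp only [indicator, mem_ball, dist_eq_norm, mem_Iio]
  rw [e2]
  exact ⟨i1.comp_sub_right w, by rw [integral_sub_right_eq_self (fun z : ℂ => f ‖z‖) w, i2]⟩

theorem den_int {h : ℂ → ℂ} (H : Den h) : Integrable h := by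
  obtain ⟨M, hM⟩ := H.bdd
  obtain ⟨R, hR⟩ := H.supp
  have h1 : Integrable (fun z : ℂ => (closedBall (0:ℂ) R).indicator (fun _ => M) z) := by
    rw [integrable_indicator_iff measurableSet_closedBall]
    exact integrableOn_const (measure_closedBall_lt_top.ne)
  refine h1.mono' H.meas (Eventually.of_forall fun z => ?_)
  by_cases hz : z ∈ closedBall (0:ℂ) R
  · rw [indicator_of_mem hz]; exact hM z
  · rw [indicator_of_notMem hz]
    rw [mem_closedBall, not_le, dist_zero_right] at hz
    rw [hR z hz, norm_zero]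

theorem den_nonneg {h : ℂ → ℂ} {M : ℝ} (hM : ∀ z, ‖h z‖ ≤ M) : 0 ≤ M :=
  (norm_nonneg _).trans (hM 0)

theorem int_kern {h : ℂ → ℂ} (H : Den h) (w : ℂ) : Integrable (fun z => h z / (z - w)) := by
  obtain ⟨M, hM⟩ := H.bdd
  have hM0 := den_nonneg hM
  have h1 := (kern w one_pos).1
  have h2 : Integrable (fun z => M * (ball w 1).indicator (fun z => ‖z - w‖⁻¹) z + ‖h z‖) :=
    (h1.const_mul M).add (den_int H).norm
  refine h2.mono' ?_ (Eventually.of_forall fun z => ?_)
  · exact (H.meas.mul ((measurable_id.sub_const w).inv.aestronglyMeasurable)).congr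
      (Eventually.of_forall fun z => by simp [div_eq_mul_inv])
  · rw [norm_div]
    by_cases hz : z ∈ ball w 1
    · rw [indicator_of_mem hz, div_eq_mul_inv]
      have := mul_le_mul_of_nonneg_right (hM z) (inv_nonneg.2 (norm_nonneg (z - w)))
      have := norm_nonneg (h z)
      linarith
    · rw [indicator_of_notMem hz, mul_zero, zero_add]
      rw [mem_ball, not_lt, dist_eq_norm] at hz
      exact div_le_self (norm_nonneg _) hz

theorem K_add {h k : ℂ → ℂ} (H : Den h) (H' : Den k) (w : ℂ) :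
    K (fun z => h z + k z) w = K h w + K k w := by
  unfold K
  rw [← integral_add (int_kern H w) (int_kern H' w)]
  congr 1
  funext z
  ring

theorem K_sub {h k : ℂ → ℂ} (H : Den h) (H' : Den k) (w : ℂ) :
    K (fun z => h z - k z) w = K h w - K k w := by
  unfold K
  rw [← integral_sub (int_kern H w) (int_kern H' w)]
  congr 1
  funext z
  ring

theorem K_congr {h k : ℂ → ℂ} (H : h =ᵐ[volume] k) (w : ℂ) : K h w = K k w := by
  unfold K
  apply integral_congr_ae
  filter_upwards [H] with z hz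
  rw [hz]

theorem K_bound {h : ℂ → ℂ} (H : Den h) {M : ℝ} (hM : ∀ᵐ z, ‖h z‖ ≤ M) (hM0 : 0 ≤ M) {S : Set ℂ}
    (hS : MeasurableSet S) (hSf : volume S ≠ ⊤) (hS0 : ∀ᵐ z, z ∉ S → h z = 0) {δ : ℝ} (hδ : 0 < δ)
    (w : ℂ) : ‖K h w‖ ≤ M * (2 * Real.pi * δ + volume.real S / δ) := by
  unfold K
  obtain ⟨k1, k2⟩ := kern w hδ
  have i2 : Integrable (fun z : ℂ => S.indicator (fun _ => M / δ) z) := by
    rw [integrable_indicator_iff hS]
    exact integrableOn_const hSf
  have i3 : ∫ z : ℂ, S.indicator (fun _ => M / δ) z = M / δ * volume.real S := by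
    rw [integral_indicator hS]
    simp [mul_comm]
  have h2 : Integrable (fun z => M * (ball w δ).indicator (fun z => ‖z - w‖⁻¹) z +
      S.indicator (fun _ => M / δ) z) := (k1.const_mul M).add i2
  calc ‖∫ z, h z / (z - w)‖ ≤ ∫ z, (M * (ball w δ).indicator (fun z => ‖z - w‖⁻¹) z +
      S.indicator (fun _ => M / δ) z) := by
        refine norm_integral_le_of_norm_le h2 ?_
        filter_upwards [hM, hS0] with z h3 h4
        rw [norm_div]
        have hq : 0 ≤ S.indicator (fun _ => M / δ) z :=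
          indicator_nonneg (fun _ _ => div_nonneg hM0 hδ.le) _
        by_cases hz : z ∈ ball w δ
        · rw [indicator_of_mem hz, div_eq_mul_inv]
          have := mul_le_mul_of_nonneg_right h3 (inv_nonneg.2 (norm_nonneg (z - w)))
          linarith
        · rw [indicator_of_notMem hz, mul_zero, zero_add]
          by_cases hzS : z ∈ S
          · rw [indicator_of_mem hzS]
            rw [mem_ball, not_lt, dist_eq_norm] at hz
            exact div_le_div₀ hM0 h3 hδ hz
          · rw [h4 hzS, norm_zero, zero_div]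
            exact hq
    _ = M * (2 * Real.pi * δ + volume.real S / δ) := by
        rw [integral_add (k1.const_mul M) i2, integral_const_mul, k2, i3]
        ring

/-- truncated kernel -/
noncomputable def kap (δ : ℝ) (ζ : ℂ) : ℂ := conj ζ / ((max ‖ζ‖ δ ^ 2 : ℝ) : ℂ)

theorem kap_cont {δ : ℝ} (hδ : 0 < δ) : Continuous (kap δ) := by
  unfold kap
  refine Continuous.div (continuous_conj) (continuous_ofReal.comp
    ((continuous_norm.max continuous_const).pow 2)) fun ζ => ?_
  have : 0 < max ‖ζ‖ δ := lt_max_of_lt_right hδ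
  exact_mod_cast (pow_pos this 2).ne'

theorem kap_far {δ : ℝ} (hδ : 0 < δ) {ζ : ℂ} (h : δ ≤ ‖ζ‖) : kap δ ζ = ζ⁻¹ := by
  unfold kap
  rw [max_eq_left h, Complex.inv_def, Complex.normSq_eq_norm_sq, div_eq_mul_inv]
  push_cast
  rfl

theorem kap_near {δ : ℝ} {ζ : ℂ} (h : ‖ζ‖ ≤ δ) : kap δ ζ = conj ζ / ((δ ^ 2 : ℝ) : ℂ) := by
  unfold kap
  rw [max_eq_right h]

theorem kap_le {δ : ℝ} (hδ : 0 < δ) (ζ : ℂ) : ‖kap δ ζ‖ ≤ δ⁻¹ := by
  rcases le_total ‖ζ‖ δ with h | h
  · rw [kap_near h, norm_div, Complex.norm_conj, Complex.norm_real, Real.norm_eq_abs,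
      abs_of_pos (pow_pos hδ 2), div_le_iff₀ (pow_pos hδ 2)]
    calc ‖ζ‖ ≤ δ := h
      _ = δ⁻¹ * δ ^ 2 := by field_simp
  · rw [kap_far hδ h, norm_inv]
    exact inv_anti₀ hδ h

theorem kap_diff {δ : ℝ} (hδ : 0 < δ) (z w : ℂ) :
    ‖(z - w)⁻¹ - kap δ (z - w)‖ ≤ (ball w δ).indicator (fun z => ‖z - w‖⁻¹) z := by
  by_cases hz : z ∈ ball w δ
  · rw [indicator_of_mem hz]
    rw [mem_ball, dist_eq_norm] at hz
    rcases eq_or_ne (z - w) 0 with h0 | h0
    · rw [h0]; simp [kap]
    · have h1 : kap δ (z - w) = ((‖z - w‖ ^ 2 / δ ^ 2 : ℝ) : ℂ) * (z - w)⁻¹ := by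
        rw [kap_near hz.le, Complex.inv_def, Complex.normSq_eq_norm_sq]
        have h2 : ((‖z - w‖ : ℝ) : ℂ) ≠ 0 := by
          exact_mod_cast norm_ne_zero_iff.2 h0
        push_cast
        field_simp
      rw [h1]
      have h3 : (z - w)⁻¹ - ((‖z - w‖ ^ 2 / δ ^ 2 : ℝ) : ℂ) * (z - w)⁻¹ =
          ((1 - ‖z - w‖ ^ 2 / δ ^ 2 : ℝ) : ℂ) * (z - w)⁻¹ := by
        push_cast; ring
      rw [h3, norm_mul, norm_inv, Complex.norm_real, Real.norm_eq_abs]
      have h4 : ‖z - w‖ ^ 2 / δ ^ 2 ≤ 1 := by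
        rw [div_le_one (pow_pos hδ 2)]
        exact pow_le_pow_left₀ (norm_nonneg _) hz.le 2
      have h5 : 0 ≤ ‖z - w‖ ^ 2 / δ ^ 2 := by positivity
      rw [abs_of_nonneg (by linarith)]
      exact mul_le_of_le_one_left (inv_nonneg.2 (norm_nonneg _)) (by linarith)
  · rw [indicator_of_notMem hz]
    rw [mem_ball, not_lt, dist_eq_norm] at hz
    rw [kap_far hδ hz, sub_self, norm_zero]

theorem K_cont {h : ℂ → ℂ} (H : Den h) : Continuous (K h) := by
  obtain ⟨M, hM⟩ := H.bdd
  have hM0 := den_nonneg hM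
  have hi := den_int H
  have hmk : ∀ (δ : ℝ), 0 < δ → ∀ w, Integrable (fun z => h z * kap δ (z - w)) := by
    intro δ hδ w
    exact hi.mul_bdd (c := δ⁻¹) ((kap_cont hδ).comp (continuous_id.sub continuous_const)).aestronglyMeasurable
      (Eventually.of_forall fun z => kap_le hδ _)
  have hc : ∀ (δ : ℝ), 0 < δ → Continuous (fun w => ∫ z, h z * kap δ (z - w)) := by
    intro δ hδ
    refine continuous_of_dominated (F := fun w z => h z * kap δ (z - w)) (bound := fun z => ‖h z‖ * δ⁻¹)
      (fun w => (hmk δ hδ w).aestronglyMeasurable) (fun w => Eventually.of_forall fun z => ?_)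
      (hi.norm.mul_const _) (Eventually.of_forall fun z => ?_)
    · rw [norm_mul]
      exact mul_le_mul_of_nonneg_left (kap_le hδ _) (norm_nonneg _)
    · exact continuous_const.mul ((kap_cont hδ).comp (continuous_const.sub continuous_id))
  apply continuous_of_uniform_approx_of_continuous
  intro u hu
  obtain ⟨ε, hε, hεu⟩ := Metric.mem_uniformity_dist.1 hu
  set δ : ℝ := ε / (M * (2 * Real.pi) + 1) with hδd
  have hden : 0 < M * (2 * Real.pi) + 1 := by positivity
  have hδ : 0 < δ := div_pos hε hden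
  refine ⟨_, hc δ hδ, fun w => hεu ?_⟩
  obtain ⟨k1, k2⟩ := kern w hδ
  rw [dist_eq_norm]
  unfold K
  rw [← integral_sub (int_kern H w) (hmk δ hδ w)]
  calc ‖∫ z, (h z / (z - w) - h z * kap δ (z - w))‖
      ≤ ∫ z, M * (ball w δ).indicator (fun z => ‖z - w‖⁻¹) z := by
        refine norm_integral_le_of_norm_le (k1.const_mul M) (Eventually.of_forall fun z => ?_)
        rw [div_eq_mul_inv, ← mul_sub, norm_mul]
        exact mul_le_mul (hM z) (kap_diff hδ z w) (norm_nonneg _) hM0
    _ = M * (2 * Real.pi * δ) := by rw [integral_const_mul, k2]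
    _ < ε := by
        have e1 : M * (2 * Real.pi * δ) = M * (2 * Real.pi) * δ := by ring
        have e2 : (M * (2 * Real.pi) + 1) * δ = ε := by
          rw [hδd]; field_simp
        rw [e1, ← e2, add_mul, one_mul]
        linarith

end Pool.Agent.V1173.RX
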