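import Pool.Agent.V1173.RX.Fun

/-!
# Localisation and the Baire argument
-/

set_option autoImplicit false
set_option linter.all false

open MeasureTheory Complex Filter Topology Metric Set
open scoped ComplexConjugate NNReal

namespace Pool.Agent.V1173.RX

/-- test functions -/
def Tst (ψ : ℂ → ℂ) : Prop := ∃ C : ℝ≥0, LipschitzWith C ψ ∧ HasCompactSupport ψ

theorem lip_mul {F G : ℂ → ℂ} {A B : ℝ≥0} (hF : LipschitzWith A F) (hG : LipschitzWith B G)
    {a b : ℝ≥0} (ha : ∀ z, ‖F z‖ ≤ a) (hb : ∀ z, F z ≠ 0 → ‖G z‖ ≤ b) :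
    LipschitzWith (a * B + b * A) (fun z => F z * G z) := by
  apply LipschitzWith.of_dist_le_mul
  intro x y
  have h1 := hF.dist_le_mul x y
  have h2 := hG.dist_le_mul x y
  rw [dist_eq_norm] at h1 h2 ⊢
  push_cast
  have hd : 0 ≤ dist x y := dist_nonneg
  by_cases hy : F y = 0
  · rw [hy, zero_mul, sub_zero, norm_mul]
    by_cases hx : F x = 0
    · rw [hx, norm_zero, zero_mul]; positivity
    · rw [hy, sub_zero] at h1
      calc ‖F x‖ * ‖G x‖ ≤ (A * dist x y) * b :=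
            mul_le_mul h1 (hb x hx) (norm_nonneg _) (by positivity)
        _ ≤ _ := by
            have : 0 ≤ (a : ℝ) * B * dist x y := by positivity
            nlinarith
  · have e : F x * G x - F y * G y = (F x - F y) * G y + F x * (G x - G y) := by ring
    rw [e]
    refine (norm_add_le _ _).trans ?_
    rw [norm_mul, norm_mul]
    have h3 : ‖F x - F y‖ * ‖G y‖ ≤ (A * dist x y) * b :=
      mul_le_mul h1 (hb y hy) (norm_nonneg _) (by positivity)
    have h4 : ‖F x‖ * ‖G x - G y‖ ≤ a * (B * dist x y) :=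
      mul_le_mul (ha x) h2 (norm_nonneg _) a.2
    nlinarith

/-- cutoff -/
noncomputable def cut (d : ℂ → ℝ) (η : ℝ) (z : ℂ) : ℂ := ((max 0 (min 1 (2 - d z / η)) : ℝ) : ℂ)

theorem amin (a b c : ℝ) : |min a c - min b c| ≤ |a - b| := by
  have k1 := le_abs_self (a - b)
  have k2 := neg_abs_le (a - b)
  have k3 := abs_nonneg (a - b)
  rcases le_total a c with h1 | h1 <;> rcases le_total b c with h2 | h2
  · rw [min_eq_left h1, min_eq_left h2]
  · rw [min_eq_left h1, min_eq_right h2, abs_le]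
    constructor <;> linarith
  · rw [min_eq_right h1, min_eq_left h2, abs_le]
    constructor <;> linarith
  · rw [min_eq_right h1, min_eq_right h2, sub_self, abs_zero]
    exact k3

theorem cut_lip {d : ℂ → ℝ} (hd : LipschitzWith 1 d) {η : ℝ} (hη : 0 < η) :
    LipschitzWith ⟨η⁻¹, by positivity⟩ (cut d η) := by
  apply LipschitzWith.of_dist_le_mul
  intro x y
  rw [dist_eq_norm]
  change ‖cut d η x - cut d η y‖ ≤ η⁻¹ * dist x y
  unfold cut
  rw [← Complex.ofReal_sub, Complex.norm_real, Real.norm_eq_abs]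
  have h1 : |max 0 (min 1 (2 - d x / η)) - max 0 (min 1 (2 - d y / η))| ≤
      |(2 - d x / η) - (2 - d y / η)| := by
    rw [max_comm 0, max_comm 0, min_comm 1, min_comm 1]
    exact (abs_max_sub_max_le_abs _ _ _).trans (amin _ _ _)
  refine h1.trans ?_
  have h2 : (2 - d x / η) - (2 - d y / η) = η⁻¹ * (d y - d x) := by
    field_simp; ring
  rw [h2, abs_mul, abs_of_pos (inv_pos.2 hη)]
  have h3 := hd.dist_le_mul x y
  rw [Real.dist_eq, NNReal.coe_one, one_mul, abs_sub_comm] at h3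
  exact mul_le_mul_of_nonneg_left h3 (inv_pos.2 hη).le

theorem cut_le (d : ℂ → ℝ) (η : ℝ) (z : ℂ) : ‖cut d η z‖ ≤ 1 := by
  unfold cut
  rw [Complex.norm_real, Real.norm_eq_abs, abs_of_nonneg (le_max_left _ _)]
  exact max_le zero_le_one (min_le_left _ _)

theorem cut_le' (d : ℂ → ℝ) (η : ℝ) (z : ℂ) : ‖1 - cut d η z‖ ≤ 1 := by
  unfold cut
  rw [← Complex.ofReal_one, ← Complex.ofReal_sub, Complex.norm_real, Real.norm_eq_abs, abs_of_nonneg]
  · have := le_max_left (0:ℝ) (min 1 (2 - d z / η))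
    linarith
  · have : max 0 (min 1 (2 - d z / η)) ≤ (1:ℝ) := max_le zero_le_one (min_le_left _ _)
    linarith

theorem cut_one {d : ℂ → ℝ} {η : ℝ} (hη : 0 < η) {z : ℂ} (h : d z ≤ η) : cut d η z = 1 := by
  unfold cut
  have : d z / η ≤ 1 := (div_le_one hη).2 h
  rw [min_eq_left (by linarith), max_eq_right zero_le_one, Complex.ofReal_one]

theorem cut_zero {d : ℂ → ℝ} {η : ℝ} (hη : 0 < η) {z : ℂ} (h : 2 * η ≤ d z) : cut d η z = 0 := by
  unfold cut
  have : 2 ≤ d z / η := (le_div_iff₀ hη).2 h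
  rw [max_eq_left ((min_le_right _ _).trans (by linarith)), Complex.ofReal_zero]

theorem tst_bdd {ψ : ℂ → ℂ} (h : Tst ψ) : ∃ M : ℝ≥0, ∀ z, ‖ψ z‖ ≤ M := by
  obtain ⟨C, hC, hs⟩ := h
  obtain ⟨M, hM⟩ := hC.continuous.bounded_above_of_compact_support hs
  have : 0 ≤ M := (norm_nonneg _).trans (hM 0)
  exact ⟨⟨M, this⟩, hM⟩

theorem tst_mul {χ ψ : ℂ → ℂ} {B : ℝ≥0} (hχ : LipschitzWith B χ) (hχ1 : ∀ z, ‖χ z‖ ≤ 1)
    (hψ : Tst ψ) : Tst (fun z => ψ z * χ z) := by
  obtain ⟨M, hM⟩ := tst_bdd hψ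
  obtain ⟨C, hC, hs⟩ := hψ
  exact ⟨_, lip_mul hC hχ hM (b := 1) (fun z _ => hχ1 z), hs.mul_right⟩

section dd

variable {X : Set ℂ} [CompactSpace X]

/-- density -/
noncomputable def qq (X : Set ℂ) (f ψ : ℂ → ℂ) (w : ℂ) : ℂ := X.indicator (fun w => f w * db ψ w) w

theorem den_qq {f : ℂ → ℂ} (hf : ContinuousOn f X) {ψ : ℂ → ℂ} {C : ℝ≥0}
    (hψ : LipschitzWith C ψ) : Den (qq X f ψ) := by
  have hX : IsCompact X := isCompact_iff_compactSpace.2 ‹_›
  obtain ⟨M, hM⟩ := hX.exists_bound_of_continuousOn hf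
  obtain ⟨R, hR⟩ := hX.isBounded.subset_closedBall 0
  refine ⟨?_, ⟨max M 0 * C, fun z => ?_⟩, ⟨R, fun z hz => ?_⟩⟩
  · unfold qq
    exact (aestronglyMeasurable_indicator_iff hX.measurableSet).2
      ((hf.aestronglyMeasurable hX.measurableSet).mul (db_meas ψ).aestronglyMeasurable)
  · unfold qq
    by_cases hz : z ∈ X
    · rw [indicator_of_mem hz, norm_mul]
      exact mul_le_mul ((hM z hz).trans (le_max_left _ _)) (db_le hψ z) (norm_nonneg _)
        (le_max_right _ _)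
    · rw [indicator_of_notMem hz, norm_zero]
      positivity
  · unfold qq
    refine indicator_of_notMem (fun h => ?_) _
    have := hR h
    rw [mem_closedBall, dist_zero_right] at this
    linarith

/-- the defect of `f` against the test function `ψ` -/
noncomputable def D (Λ : C(X, ℂ) →L[ℂ] ℂ) (f ψ : ℂ → ℂ) : ℂ :=
  Ev Λ (fun z => ψ z * f z + (Real.pi : ℂ)⁻¹ * K (qq X f ψ) z)

theorem cont_D {f : ℂ → ℂ} (hf : ContinuousOn f X) {ψ : ℂ → ℂ} {C : ℝ≥0}
    (hψ : LipschitzWith C ψ) :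
    Continuous (fun z : X => ψ z * f z + (Real.pi : ℂ)⁻¹ * K (qq X f ψ) z) := by
  have h1 : Continuous (fun z : X => f z) := continuousOn_iff_continuous_domRestrict.1 hf
  exact ((hψ.continuous.comp continuous_subtype_val).mul h1).add
    (continuous_const.mul ((K_cont (den_qq hf hψ)).comp continuous_subtype_val))

theorem D_add (Λ : C(X, ℂ) →L[ℂ] ℂ) {f : ℂ → ℂ} (hf : ContinuousOn f X) {ψ φ : ℂ → ℂ}
    (hψ : Tst ψ) (hφ : Tst φ) : D Λ f (fun z => ψ z + φ z) = D Λ f ψ + D Λ f φ := by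
  obtain ⟨C, hC, -⟩ := hψ
  obtain ⟨C', hC', -⟩ := hφ
  unfold D
  rw [← Ev_add Λ (cont_D hf hC) (cont_D hf hC')]
  refine Ev_congr Λ fun z _ => ?_
  have h1 : K (qq X f (fun z => ψ z + φ z)) z = K (qq X f ψ) z + K (qq X f φ) z := by
    rw [← K_add (den_qq hf hC) (den_qq hf hC')]
    apply K_congr
    filter_upwards [hC.ae_differentiableAt (μ := volume), hC'.ae_differentiableAt (μ := volume)]
      with w h1 h2
    unfold qq
    by_cases hw : w ∈ X
    · rw [indicator_of_mem hw, indicator_of_mem hw, indicator_of_mem hw, db_add h1 h2]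
      ring
    · rw [indicator_of_notMem hw, indicator_of_notMem hw, indicator_of_notMem hw, add_zero]
  rw [h1]
  ring

theorem D_zero_of (Λ : C(X, ℂ) →L[ℂ] ℂ) {f ψ : ℂ → ℂ} (h1 : ∀ z ∈ X, ψ z = 0)
    (h2 : ∀ z ∈ X, db ψ z = 0) : D Λ f ψ = 0 := by
  unfold D
  have h3 : qq X f ψ = fun _ => 0 := by
    funext w
    unfold qq
    by_cases hw : w ∈ X
    · rw [indicator_of_mem hw, h2 w hw, mul_zero]
    · rw [indicator_of_notMem hw]
  have h4 : ∀ z, K (qq X f ψ) z = 0 := by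
    intro z
    rw [h3]
    unfold K
    simp
  rw [Ev_of Λ (0 : C(X, ℂ)) (fun z => by rw [h4, h1 z z.2]; simp), map_zero]

/-- good discs -/
def Gd (Λ : C(X, ℂ) →L[ℂ] ℂ) (f : ℂ → ℂ) (a : ℂ) (r : ℝ) : Prop :=
  ∀ ψ : ℂ → ℂ, Tst ψ → (∀ z, r ≤ dist z a → ψ z = 0) → D Λ f ψ = 0

theorem glue_fin (Λ : C(X, ℂ) →L[ℂ] ℂ) {f : ℂ → ℂ} (hf : ContinuousOn f X) (s : Finset (ℂ × ℝ)) :
    (∀ p ∈ s, 0 < p.2 ∧ Gd Λ f p.1 p.2) → ∀ ψ : ℂ → ℂ, Tst ψ →
      (∀ z, ψ z ≠ 0 → ∃ p ∈ s, dist z p.1 < p.2 / 2) → D Λ f ψ = 0 := by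
  classical
  induction s using Finset.induction_on with
  | empty =>
    intro _ ψ hψ h
    have h0 : ψ = fun _ => 0 := by
      funext z
      by_contra hz
      obtain ⟨p, hp, -⟩ := h z hz
      exact absurd hp (Finset.notMem_empty p)
    refine D_zero_of Λ (fun z _ => by rw [h0]) (fun z _ => ?_)
    rw [h0]
    exact db_zero_of (Eventually.of_forall fun _ => rfl)
  | insert p s hp ih =>
    intro hs ψ hψ h
    obtain ⟨hp0, hpG⟩ := hs p (Finset.mem_insert_self p s)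
    set d : ℂ → ℝ := fun z => dist z p.1 with hd
    have hdl : LipschitzWith 1 d := LipschitzWith.dist_left p.1
    have hη : 0 < p.2 / 2 := by positivity
    set χ := cut d (p.2 / 2) with hχ
    have hχl := cut_lip hdl hη
    have hχl' : LipschitzWith (0 + _) (fun z => 1 - χ z) := (LipschitzWith.const 1).sub hχl
    have t1 : Tst (fun z => ψ z * χ z) := tst_mul hχl (cut_le d _) hψ
    have t2 : Tst (fun z => ψ z * (1 - χ z)) := tst_mul hχl' (cut_le' d _) hψ
    have e : ψ = fun z => ψ z * χ z + ψ z * (1 - χ z) := by funext z; ring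
    rw [e, D_add Λ hf t1 t2]
    have e1 : D Λ f (fun z => ψ z * χ z) = 0 := by
      refine hpG _ t1 fun z hz => ?_
      rw [hχ, cut_zero hη (by rw [hd]; linarith), mul_zero]
    have e2 : D Λ f (fun z => ψ z * (1 - χ z)) = 0 := by
      refine ih (fun q hq => hs q (Finset.mem_insert_of_mem hq)) _ t2 fun z hz => ?_
      have hz1 : ψ z ≠ 0 := left_ne_zero_of_mul hz
      have hz2 : 1 - χ z ≠ 0 := right_ne_zero_of_mul hz
      obtain ⟨q, hq, hzq⟩ := h z hz1
      rcases Finset.mem_insert.1 hq with rfl | hq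
      · exfalso
        apply hz2
        rw [hχ, cut_one (d := d) hη (le_of_lt hzq), sub_self]
      · exact ⟨q, hq, hzq⟩
    rw [e1, e2, add_zero]

theorem glue (Λ : C(X, ℂ) →L[ℂ] ℂ) {f : ℂ → ℂ} (hf : ContinuousOn f X) {T : Set ℂ}
    (hT : IsCompact T) (hg : ∀ a ∈ T, ∃ r > 0, Gd Λ f a r) {ψ : ℂ → ℂ} (hψ : Tst ψ)
    (h0 : ∀ z, z ∉ T → ψ z = 0) : D Λ f ψ = 0 := by
  classical
  choose! r hr hrG using hg
  obtain ⟨t, htT, htc⟩ := hT.elim_nhds_subcover (fun a => ball a (r a / 2))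
    (fun a ha => ball_mem_nhds a (half_pos (hr a ha)))
  refine glue_fin Λ hf (t.image fun a => (a, r a)) (fun p hp => ?_) ψ hψ fun z hz => ?_
  · obtain ⟨a, ha, rfl⟩ := Finset.mem_image.1 hp
    exact ⟨hr a (htT a ha), hrG a (htT a ha)⟩
  · have hzT : z ∈ T := by
      by_contra h
      exact hz (h0 z h)
    obtain ⟨a, ha, hza⟩ := mem_iUnion₂.1 (htc hzT)
    exact ⟨(a, r a), Finset.mem_image_of_mem _ ha, hza⟩

/-- extensions of complex differentiable functions have `∂̄ = 0` almost everywhere on the set -/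
theorem dbg {f g : ℂ → ℂ} {X A : Set ℂ} (hf : DifferentiableOn ℂ f X) (hAX : A ⊆ X)
    (hA : MeasurableSet A) {L : ℝ≥0} (hg : LipschitzWith L g) (hfg : EqOn f g A) :
    ∀ᵐ z, z ∈ A → db g z = 0 := by
  set s : Set ℂ := A ∩ {z | DifferentiableAt ℝ g z} with hs
  have hsm : MeasurableSet s := hA.inter (measurableSet_of_differentiableAt ℝ g)
  set c : ℂ → ℂ →L[ℂ] ℂ := fun z => fderivWithin ℂ f X z with hc
  set u : ℂ → ℂ →L[ℝ] ℂ := fun z => fderiv ℝ g z - (c z).restrictScalars ℝ with hu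
  have h1 : ∀ x ∈ s, HasFDerivWithinAt (fun _ : ℂ => (0:ℂ)) (u x) s x := by
    intro x hx
    have g1 : HasFDerivWithinAt g (fderiv ℝ g x) s x := hx.2.hasFDerivAt.hasFDerivWithinAt
    have f1 : HasFDerivWithinAt f ((c x).restrictScalars ℝ) s x :=
      (((hf x (hAX hx.1)).hasFDerivWithinAt).restrictScalars ℝ).mono
        (fun y hy => hAX hy.1)
    refine (g1.sub f1).congr (fun y hy => ?_) ?_
    · simp only [Pi.sub_apply]
      rw [hfg hy.1, sub_self]
    · simp only [Pi.sub_apply]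
      rw [hfg hx.1, sub_self]
  have h2 : ApproximatesLinearOn (fun _ : ℂ => (0:ℂ)) (0 : ℂ →L[ℝ] ℂ) s 0 := by
    intro x _ y _
    simp
  have h3 := h2.norm_fderiv_sub_le volume hsm u h1
  rw [ae_restrict_iff' hsm] at h3
  filter_upwards [h3, hg.ae_differentiableAt (μ := volume)] with z hz1 hz2 hzA
  have h4 := hz1 ⟨hzA, hz2⟩
  rw [sub_zero] at h4
  have h5 : u z = 0 := by
    rw [← nnnorm_eq_zero]
    exact le_antisymm h4 zero_le
  have h6 : fderiv ℝ g z = (c z).restrictScalars ℝ := sub_eq_zero.1 h5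
  unfold db
  rw [h6]
  simp only [ContinuousLinearMap.coe_restrictScalars']
  have h7 : c z I = I * c z 1 := by
    have : (I : ℂ) = I • (1 : ℂ) := by simp
    conv_lhs => rw [this, map_smul]
    rfl
  rw [h7, ← mul_assoc, I_mul_I]
  ring

end dd

end Pool.Agent.V1173.RX
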