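import Pool.Agent.V1173.RX.Ker

/-!
# The Pompeiu formula for Lipschitz functions
-/

set_option autoImplicit false
set_option linter.all false

open MeasureTheory Complex Filter Topology Metric Set
open scoped ComplexConjugate NNReal

namespace Pool.Agent.V1173.RX

/-- the operator `∂̄` -/
noncomputable def db (F : ℂ → ℂ) (z : ℂ) : ℂ := (fderiv ℝ F z 1 + I * fderiv ℝ F z I) / 2

theorem db_le {F : ℂ → ℂ} {C : ℝ≥0} (hF : LipschitzWith C F) (z : ℂ) : ‖db F z‖ ≤ C := by
  unfold db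
  have h1 : ‖fderiv ℝ F z 1‖ ≤ C := by
    refine ((fderiv ℝ F z).le_opNorm 1).trans ?_
    rw [norm_one, mul_one]
    exact norm_fderiv_le_of_lipschitz ℝ hF
  have h2 : ‖fderiv ℝ F z I‖ ≤ C := by
    refine ((fderiv ℝ F z).le_opNorm I).trans ?_
    rw [norm_I, mul_one]
    exact norm_fderiv_le_of_lipschitz ℝ hF
  rw [norm_div, RCLike.norm_ofNat, div_le_iff₀ (by norm_num)]
  refine (norm_add_le _ _).trans ?_
  rw [norm_mul, norm_I, one_mul]
  linarith

theorem db_congr {F G : ℂ → ℂ} {z : ℂ} (h : F =ᶠ[𝓝 z] G) : db F z = db G z := by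
  unfold db
  rw [h.fderiv_eq]

theorem db_zero_of {F : ℂ → ℂ} {z : ℂ} (h : F =ᶠ[𝓝 z] fun _ => 0) : db F z = 0 := by
  rw [db_congr h]
  unfold db
  simp

theorem db_mul {F G : ℂ → ℂ} {z : ℂ} (hF : DifferentiableAt ℝ F z)
    (hG : DifferentiableAt ℝ G z) :
    db (fun w => F w * G w) z = db F z * G z + F z * db G z := by
  unfold db
  rw [fderiv_fun_mul hF hG]
  simp only [ContinuousLinearMap.add_apply, ContinuousLinearMap.smul_apply, smul_eq_mul]
  ring

theorem db_add {F G : ℂ → ℂ} {z : ℂ} (hF : DifferentiableAt ℝ F z)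
    (hG : DifferentiableAt ℝ G z) :
    db (fun w => F w + G w) z = db F z + db G z := by
  unfold db
  rw [fderiv_fun_add hF hG]
  simp only [ContinuousLinearMap.add_apply]
  ring

theorem db_meas (F : ℂ → ℂ) : Measurable (db F) := by
  unfold db
  exact ((measurable_fderiv_apply_const ℝ F 1).add
    ((measurable_fderiv_apply_const ℝ F I).const_mul I)).div_const 2

theorem kap_lip {δ : ℝ} (hδ : 0 < δ) : LipschitzWith ⟨3 / δ ^ 2, by positivity⟩ (kap δ) := by
  apply LipschitzWith.of_dist_le_mul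
  intro a b
  rw [dist_eq_norm, dist_eq_norm]
  change _ ≤ 3 / δ ^ 2 * ‖a - b‖
  set m : ℂ → ℝ := fun ζ => max ‖ζ‖ δ with hm
  have hm0 : ∀ ζ, δ ≤ m ζ := fun ζ => le_max_right _ _
  have hmp : ∀ ζ, 0 < m ζ := fun ζ => hδ.trans_le (hm0 ζ)
  have hmn : ∀ ζ, ‖ζ‖ ≤ m ζ := fun ζ => le_max_left _ _
  have hs : |(m a)⁻¹ - (m b)⁻¹| ≤ ‖a - b‖ / (m a * m b) := by
    have h1 : (m a)⁻¹ - (m b)⁻¹ = (m b - m a) / (m a * m b) := by
      have := (hmp a).ne'
      have := (hmp b).ne'
      field_simp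
    rw [h1, abs_div, abs_of_pos (mul_pos (hmp a) (hmp b))]
    apply div_le_div_of_nonneg_right _ (mul_pos (hmp a) (hmp b)).le
    have h2 : |max ‖b‖ δ - max ‖a‖ δ| ≤ |‖b‖ - ‖a‖| := by
      exact abs_max_sub_max_le_abs _ _ _
    refine h2.trans ?_
    rw [abs_sub_comm]
    exact abs_norm_sub_norm_le a b
  have hk : ∀ ζ, kap δ ζ = conj ζ * ((((m ζ)⁻¹ : ℝ) : ℂ) * (((m ζ)⁻¹ : ℝ) : ℂ)) := by
    intro ζ
    unfold kap
    rw [hm]
    push_cast
    have : ((max ‖ζ‖ δ : ℝ) : ℂ) ≠ 0 := by exact_mod_cast (hmp ζ).ne'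
    push_cast at this
    field_simp
  have e1 : kap δ a - kap δ b = conj (a - b) * ((((m a)⁻¹ : ℝ) : ℂ) * (((m a)⁻¹ : ℝ) : ℂ)) +
      conj b * (((((m a)⁻¹ - (m b)⁻¹ : ℝ) : ℂ)) * ((((m a)⁻¹ + (m b)⁻¹ : ℝ) : ℂ))) := by
    rw [hk, hk, map_sub]
    push_cast
    ring
  rw [e1]
  refine (norm_add_le _ _).trans ?_
  rw [norm_mul, norm_mul, norm_mul, norm_mul, Complex.norm_conj, Complex.norm_conj,
    Complex.norm_real, Complex.norm_real, Complex.norm_real, Real.norm_eq_abs, Real.norm_eq_abs,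
    Real.norm_eq_abs, abs_of_pos (inv_pos.2 (hmp a)),
    abs_of_pos (add_pos (inv_pos.2 (hmp a)) (inv_pos.2 (hmp b)))]
  have ha : (m a)⁻¹ ≤ δ⁻¹ := inv_anti₀ hδ (hm0 a)
  have hb : (m b)⁻¹ ≤ δ⁻¹ := inv_anti₀ hδ (hm0 b)
  have hap := (inv_pos.2 (hmp a))
  have hbp := (inv_pos.2 (hmp b))
  have h1 : ‖a - b‖ * ((m a)⁻¹ * (m a)⁻¹) ≤ ‖a - b‖ * (δ⁻¹ * δ⁻¹) :=
    mul_le_mul_of_nonneg_left (mul_le_mul ha ha hap.le (inv_pos.2 hδ).le) (norm_nonneg _)
  have h2 : ‖b‖ * (|(m a)⁻¹ - (m b)⁻¹| * ((m a)⁻¹ + (m b)⁻¹)) ≤ ‖a - b‖ * (2 * (δ⁻¹ * δ⁻¹)) := by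
    have h3 : ‖b‖ * |(m a)⁻¹ - (m b)⁻¹| ≤ ‖a - b‖ * δ⁻¹ := by
      calc ‖b‖ * |(m a)⁻¹ - (m b)⁻¹| ≤ m b * (‖a - b‖ / (m a * m b)) :=
            mul_le_mul (hmn b) hs (abs_nonneg _) (hmp b).le
        _ = ‖a - b‖ * (m a)⁻¹ := by
            have := (hmp a).ne'
            have := (hmp b).ne'
            field_simp
        _ ≤ ‖a - b‖ * δ⁻¹ := mul_le_mul_of_nonneg_left ha (norm_nonneg _)
    have h4 : (m a)⁻¹ + (m b)⁻¹ ≤ 2 * δ⁻¹ := by linarith
    calc ‖b‖ * (|(m a)⁻¹ - (m b)⁻¹| * ((m a)⁻¹ + (m b)⁻¹))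
        = (‖b‖ * |(m a)⁻¹ - (m b)⁻¹|) * ((m a)⁻¹ + (m b)⁻¹) := by ring
      _ ≤ (‖a - b‖ * δ⁻¹) * (2 * δ⁻¹) :=
          mul_le_mul h3 h4 (by positivity) (by positivity)
      _ = ‖a - b‖ * (2 * (δ⁻¹ * δ⁻¹)) := by ring
  have h5 : 3 / δ ^ 2 * ‖a - b‖ = ‖a - b‖ * (δ⁻¹ * δ⁻¹) + ‖a - b‖ * (2 * (δ⁻¹ * δ⁻¹)) := by
    field_simp; ring
  rw [h5]
  exact add_le_add h1 h2

theorem ibpR {a c : ℂ → ℝ} {A B : ℝ≥0} (ha : LipschitzWith A a) (hc : LipschitzWith B c)
    (hs : HasCompactSupport a) (v : ℂ) :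
    Integrable (fun z => c z * lineDeriv ℝ a z v + a z * lineDeriv ℝ c z v) ∧
    ∫ z, (c z * lineDeriv ℝ a z v + a z * lineDeriv ℝ c z v) = 0 := by
  have hfin : volume (tsupport a) ≠ ⊤ := hs.measure_lt_top.ne
  have hms : MeasurableSet (tsupport a) := (isClosed_tsupport a).measurableSet
  obtain ⟨Mc, hMc⟩ := IsCompact.exists_bound_of_continuousOn hs hc.continuous.continuousOn
  obtain ⟨Ma, hMa⟩ := IsCompact.exists_bound_of_continuousOn hs ha.continuous.continuousOn
  have hoff : ∀ z, z ∉ tsupport a → lineDeriv ℝ a z v = 0 := by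
    intro z hz
    have h1 : a =ᶠ[𝓝 z] fun _ => (0:ℝ) := notMem_tsupport_iff_eventuallyEq.1 hz
    rw [h1.lineDeriv_eq]
    unfold lineDeriv
    simp
  have i1 : Integrable (fun z => c z * lineDeriv ℝ a z v) := by
    have h1 : Integrable (fun z : ℂ => (tsupport a).indicator (fun _ => Mc * (A * ‖v‖)) z) := by
      rw [integrable_indicator_iff hms]
      exact integrableOn_const hfin
    refine h1.mono' (hc.continuous.aestronglyMeasurable.mul
      (aestronglyMeasurable_lineDeriv ha.continuous volume)) (Eventually.of_forall fun z => ?_)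
    by_cases hz : z ∈ tsupport a
    · rw [indicator_of_mem hz, norm_mul]
      exact mul_le_mul (hMc z hz) (norm_lineDeriv_le_of_lipschitz ℝ ha) (norm_nonneg _)
        ((norm_nonneg _).trans (hMc z hz))
    · rw [indicator_of_notMem hz, hoff z hz, mul_zero, norm_zero]
  have i2 : Integrable (fun z => a z * lineDeriv ℝ c z v) := by
    have h1 : Integrable (fun z : ℂ => (tsupport a).indicator (fun _ => Ma * (B * ‖v‖)) z) := by
      rw [integrable_indicator_iff hms]
      exact integrableOn_const hfin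
    refine h1.mono' (ha.continuous.aestronglyMeasurable.mul
      (aestronglyMeasurable_lineDeriv hc.continuous volume)) (Eventually.of_forall fun z => ?_)
    by_cases hz : z ∈ tsupport a
    · rw [indicator_of_mem hz, norm_mul]
      exact mul_le_mul (hMa z hz) (norm_lineDeriv_le_of_lipschitz ℝ hc) (norm_nonneg _)
        ((norm_nonneg _).trans (hMa z hz))
    · rw [indicator_of_notMem hz, image_eq_zero_of_notMem_tsupport hz, zero_mul, norm_zero]
  refine ⟨i1.add i2, ?_⟩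
  rw [integral_add i1 i2]
  have h := LipschitzWith.integral_lineDeriv_mul_eq (μ := volume) hc ha hs v
  have e1 : ∫ z, a z * lineDeriv ℝ c z v = ∫ z, lineDeriv ℝ c z v * a z := by
    congr 1; funext z; ring
  have e2 : ∫ z, lineDeriv ℝ a z (-v) * c z = - ∫ z, c z * lineDeriv ℝ a z v := by
    rw [← integral_neg]
    congr 1; funext z
    rw [lineDeriv_neg]; ring
  rw [e1, h, e2]
  ring

theorem lip_re {F : ℂ → ℂ} {A : ℝ≥0} (hF : LipschitzWith A F) : LipschitzWith A (fun z => (F z).re) := by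
  apply LipschitzWith.of_dist_le_mul
  intro x y
  refine le_trans ?_ (hF.dist_le_mul x y)
  rw [Real.dist_eq, dist_eq_norm, ← Complex.sub_re]
  exact Complex.abs_re_le_norm _

theorem lip_im {F : ℂ → ℂ} {A : ℝ≥0} (hF : LipschitzWith A F) : LipschitzWith A (fun z => (F z).im) := by
  apply LipschitzWith.of_dist_le_mul
  intro x y
  refine le_trans ?_ (hF.dist_le_mul x y)
  rw [Real.dist_eq, dist_eq_norm, ← Complex.sub_im]
  exact Complex.abs_im_le_norm _

theorem fd_split {F : ℂ → ℂ} {z : ℂ} (h : DifferentiableAt ℝ F z) (v : ℂ) :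
    fderiv ℝ F z v = ((lineDeriv ℝ (fun z => (F z).re) z v : ℝ) : ℂ) +
      I * ((lineDeriv ℝ (fun z => (F z).im) z v : ℝ) : ℂ) := by
  have h1 : HasFDerivAt (fun z => (F z).re) (Complex.reCLM.comp (fderiv ℝ F z)) z :=
    Complex.reCLM.hasFDerivAt.comp z h.hasFDerivAt
  have h2 : HasFDerivAt (fun z => (F z).im) (Complex.imCLM.comp (fderiv ℝ F z)) z :=
    Complex.imCLM.hasFDerivAt.comp z h.hasFDerivAt
  rw [h1.differentiableAt.lineDeriv_eq_fderiv, h2.differentiableAt.lineDeriv_eq_fderiv,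
    h1.fderiv, h2.fderiv]
  simp only [ContinuousLinearMap.comp_apply, Complex.reCLM_apply, Complex.imCLM_apply]
  rw [mul_comm I]
  exact (Complex.re_add_im _).symm

theorem ibp {F G : ℂ → ℂ} {A B : ℝ≥0} (hF : LipschitzWith A F) (hG : LipschitzWith B G)
    (hs : HasCompactSupport F) (v : ℂ) :
    Integrable (fun z => G z * fderiv ℝ F z v + F z * fderiv ℝ G z v) ∧
    ∫ z, (G z * fderiv ℝ F z v + F z * fderiv ℝ G z v) = 0 := by
  have sr : HasCompactSupport (fun z => (F z).re) := hs.comp_left (g := Complex.re) rfl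
  have si : HasCompactSupport (fun z => (F z).im) := hs.comp_left (g := Complex.im) rfl
  obtain ⟨a1, a2⟩ := ibpR (lip_re hF) (lip_re hG) sr v
  obtain ⟨b1, b2⟩ := ibpR (lip_im hF) (lip_im hG) si v
  obtain ⟨c1, c2⟩ := ibpR (lip_re hF) (lip_im hG) sr v
  obtain ⟨d1, d2⟩ := ibpR (lip_im hF) (lip_re hG) si v
  set P : ℂ → ℝ := fun z => (G z).re * lineDeriv ℝ (fun z => (F z).re) z v +
    (F z).re * lineDeriv ℝ (fun z => (G z).re) z v with hP
  set Q : ℂ → ℝ := fun z => (G z).im * lineDeriv ℝ (fun z => (F z).im) z v +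
    (F z).im * lineDeriv ℝ (fun z => (G z).im) z v with hQ
  set R : ℂ → ℝ := fun z => (G z).im * lineDeriv ℝ (fun z => (F z).re) z v +
    (F z).re * lineDeriv ℝ (fun z => (G z).im) z v with hR
  set S : ℂ → ℝ := fun z => (G z).re * lineDeriv ℝ (fun z => (F z).im) z v +
    (F z).im * lineDeriv ℝ (fun z => (G z).re) z v with hS
  have hae : (fun z => G z * fderiv ℝ F z v + F z * fderiv ℝ G z v) =ᵐ[volume]
      fun z => (((P z : ℝ) : ℂ) - ((Q z : ℝ) : ℂ)) + I * (((R z : ℝ) : ℂ) + ((S z : ℝ) : ℂ)) := by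
    filter_upwards [hF.ae_differentiableAt (μ := volume), hG.ae_differentiableAt (μ := volume)]
      with z h1 h2
    rw [fd_split h1, fd_split h2]
    conv_lhs => rw [← Complex.re_add_im (F z), ← Complex.re_add_im (G z)]
    rw [hP, hQ, hR, hS]
    push_cast
    ring_nf
    rw [I_sq]
    ring
  have j1 : Integrable (fun z => (((P z : ℝ) : ℂ) - ((Q z : ℝ) : ℂ))) := a1.ofReal.sub b1.ofReal
  have j2 : Integrable (fun z => (((R z : ℝ) : ℂ) + ((S z : ℝ) : ℂ))) := c1.ofReal.add d1.ofReal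
  refine ⟨(j1.add (j2.const_mul I)).congr hae.symm, ?_⟩
  rw [integral_congr_ae hae, integral_add j1 (j2.const_mul I), integral_const_mul,
    integral_sub a1.ofReal b1.ofReal, integral_add c1.ofReal d1.ofReal]
  have q1 : ∫ z, ((P z : ℝ) : ℂ) = ((∫ z, P z : ℝ) : ℂ) := integral_ofReal
  have q2 : ∫ z, ((Q z : ℝ) : ℂ) = ((∫ z, Q z : ℝ) : ℂ) := integral_ofReal
  have q3 : ∫ z, ((R z : ℝ) : ℂ) = ((∫ z, R z : ℝ) : ℂ) := integral_ofReal
  have q4 : ∫ z, ((S z : ℝ) : ℂ) = ((∫ z, S z : ℝ) : ℂ) := integral_ofReal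
  rw [q1, q2, q3, q4, a2, b2, c2, d2]
  simp

theorem den_db {F : ℂ → ℂ} {A : ℝ≥0} (hF : LipschitzWith A F) (hs : HasCompactSupport F) :
    Den (db F) := by
  refine ⟨(db_meas F).aestronglyMeasurable, ⟨A, db_le hF⟩, ?_⟩
  obtain ⟨R, hR⟩ := (show IsCompact (tsupport F) from hs).isBounded.subset_closedBall 0
  refine ⟨R, fun z hz => ?_⟩
  have : z ∉ tsupport F := fun h => by
    have := hR h
    rw [mem_closedBall, dist_zero_right] at this
    linarith
  exact db_zero_of (notMem_tsupport_iff_eventuallyEq.1 this)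

theorem db_kap_near {δ : ℝ} (hδ : 0 < δ) {z w : ℂ} (h : ‖z - w‖ < δ) :
    db (fun z => kap δ (z - w)) z = (((δ ^ 2)⁻¹ : ℝ) : ℂ) := by
  have h1 : (fun z => kap δ (z - w)) =ᶠ[𝓝 z] fun z => conj (z - w) * (((δ ^ 2)⁻¹ : ℝ) : ℂ) := by
    have : ∀ᶠ y in 𝓝 z, ‖y - w‖ < δ :=
      (((continuous_id.sub continuous_const).norm).tendsto z).eventually (gt_mem_nhds h)
    filter_upwards [this] with y hy
    rw [kap_near hy.le]
    push_cast
    rw [div_eq_mul_inv]
  rw [db_congr h1]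
  have h2 : HasFDerivAt (fun z : ℂ => conj (z - w) * (((δ ^ 2)⁻¹ : ℝ) : ℂ))
      ((((δ ^ 2)⁻¹ : ℝ) : ℂ) • (Complex.conjCLE.toContinuousLinearMap : ℂ →L[ℝ] ℂ)) z := by
    have h3 : HasFDerivAt (fun z : ℂ => conj (z - w)) (Complex.conjCLE.toContinuousLinearMap : ℂ →L[ℝ] ℂ) z := by
      have h4 : HasFDerivAt (fun z : ℂ => z - w) (ContinuousLinearMap.id ℝ ℂ) z :=
        (hasFDerivAt_id z).sub_const w
      have h5 : HasFDerivAt (fun z : ℂ => conj (z - w))
          ((Complex.conjCLE.toContinuousLinearMap : ℂ →L[ℝ] ℂ).comp (ContinuousLinearMap.id ℝ ℂ)) z :=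
        (Complex.conjCLE.toContinuousLinearMap : ℂ →L[ℝ] ℂ).hasFDerivAt.comp z h4
      rwa [ContinuousLinearMap.comp_id] at h5
    exact h3.mul_const _
  unfold db
  rw [h2.fderiv]
  simp only [ContinuousLinearMap.smul_apply, smul_eq_mul, ContinuousLinearEquiv.coe_coe,
    Complex.conjCLE_apply, map_one, conj_I]
  ring_nf
  rw [I_sq]
  ring

theorem db_kap_far {δ : ℝ} (hδ : 0 < δ) {z w : ℂ} (h : δ < ‖z - w‖) :
    db (fun z => kap δ (z - w)) z = 0 := by
  have h1 : (fun z => kap δ (z - w)) =ᶠ[𝓝 z] fun z => (z - w)⁻¹ := by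
    have : ∀ᶠ y in 𝓝 z, δ < ‖y - w‖ :=
      (((continuous_id.sub continuous_const).norm).tendsto z).eventually (lt_mem_nhds h)
    filter_upwards [this] with y hy
    exact kap_far hδ hy.le
  rw [db_congr h1]
  have h0 : z - w ≠ 0 := norm_ne_zero_iff.1 (hδ.trans h).ne'
  have h2 : HasDerivAt (fun z : ℂ => (z - w)⁻¹) (-1 / (z - w) ^ 2) z := by
    exact ((hasDerivAt_id z).sub_const w).inv h0
  have h3 := h2.hasFDerivAt.restrictScalars ℝ
  unfold db
  rw [h3.fderiv]
  simp only [ContinuousLinearMap.coe_restrictScalars', ContinuousLinearMap.toSpanSingleton_apply, smul_eq_mul]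
  ring_nf
  rw [I_sq]
  ring

/-- **Pompeiu's formula** -/
theorem pompeiu {F : ℂ → ℂ} {A : ℝ≥0} (hF : LipschitzWith A F) (hs : HasCompactSupport F) (w : ℂ) :
    K (db F) w = - (Real.pi : ℂ) * F w := by
  have hden := den_db hF hs
  suffices H : ∀ δ : ℝ, 0 < δ → ‖K (db F) w + Real.pi * F w‖ ≤ 3 * Real.pi * A * δ by
    have h0 : ‖K (db F) w + Real.pi * F w‖ ≤ 0 := by
      apply le_of_forall_pos_le_add
      intro ε hε
      have hp : 0 < 3 * Real.pi * A + 1 := by positivity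
      have := H (ε / (3 * Real.pi * A + 1)) (div_pos hε hp)
      refine this.trans ?_
      rw [zero_add, mul_div_assoc', div_le_iff₀ hp]
      nlinarith
    have h1 : K (db F) w + Real.pi * F w = 0 := norm_le_zero_iff.1 h0
    linear_combination h1
  intro δ hδ
  set G : ℂ → ℂ := fun z => kap δ (z - w) with hG
  have hGl : LipschitzWith ⟨3 / δ ^ 2, by positivity⟩ G := by
    apply LipschitzWith.of_dist_le_mul
    intro x y
    have := (kap_lip hδ).dist_le_mul (x - w) (y - w)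
    rwa [dist_sub_right] at this
  obtain ⟨i1, e1⟩ := ibp hF hGl hs 1
  obtain ⟨i2, e2⟩ := ibp hF hGl hs I
  have hsum : ∫ z, (G z * db F z + F z * db G z) = 0 := by
    have h1 : ∀ z, G z * db F z + F z * db G z =
        (1 / 2 : ℂ) * (G z * fderiv ℝ F z 1 + F z * fderiv ℝ G z 1) +
        (I / 2) * (G z * fderiv ℝ F z I + F z * fderiv ℝ G z I) := by
      intro z; unfold db; ring
    simp_rw [h1]
    rw [integral_add (i1.const_mul _) (i2.const_mul _), integral_const_mul, integral_const_mul,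
      e1, e2]
    simp
  have g1 : Integrable (fun z => G z * db F z) := by
    have := (den_int hden).mul_bdd (c := δ⁻¹) ((kap_cont hδ).comp
      (continuous_id.sub continuous_const)).aestronglyMeasurable
      (Eventually.of_forall fun z => kap_le hδ (z - w))
    refine this.congr (Eventually.of_forall fun z => ?_)
    change db F z * kap δ (z - w) = kap δ (z - w) * db F z
    ring
  obtain ⟨k1, k2⟩ := kern w hδ
  have hFG : (fun z => F z * db G z) =ᵐ[volume]
      fun z => (ball w δ).indicator (fun z => (((δ ^ 2)⁻¹ : ℝ) : ℂ) * F z) z := by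
    have hsp : ∀ᵐ z, z ∉ sphere w δ := by
      rw [ae_iff]
      simp only [not_not, setOf_mem_eq]
      exact Measure.addHaar_sphere volume w δ
    filter_upwards [hsp] with z hz
    rw [mem_sphere, dist_eq_norm] at hz
    rcases lt_or_gt_of_ne hz with h | h
    · rw [indicator_of_mem (by rw [mem_ball, dist_eq_norm]; exact h), db_kap_near hδ h]
      ring
    · rw [indicator_of_notMem (by rw [mem_ball, dist_eq_norm, not_lt]; exact h.le), db_kap_far hδ h,
        mul_zero]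
  have bfin : volume (ball w δ) ≠ ⊤ := measure_ball_lt_top.ne
  have hFi : IntegrableOn F (ball w δ) :=
    (hF.continuous.continuousOn.integrableOn_compact (isCompact_closedBall w δ)).mono_set
      ball_subset_closedBall
  have g2 : Integrable (fun z => F z * db G z) := by
    refine Integrable.congr ?_ hFG.symm
    rw [integrable_indicator_iff measurableSet_ball]
    exact hFi.const_mul _
  have e3 : ∫ z, G z * db F z = - ∫ z, F z * db G z := by
    rw [integral_add g1 g2] at hsum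
    exact eq_neg_of_add_eq_zero_left hsum
  have e4 : ∫ z, F z * db G z = (((δ ^ 2)⁻¹ : ℝ) : ℂ) * ∫ z in ball w δ, F z := by
    rw [integral_congr_ae hFG, integral_indicator measurableSet_ball, integral_const_mul]
  have bvol : volume.real (ball w δ) = Real.pi * δ ^ 2 := by
    rw [Measure.real, Complex.volume_ball]
    simp [ENNReal.toReal_ofReal hδ.le]
    ring
  -- error terms
  have r1 : ‖K (db F) w - ∫ z, G z * db F z‖ ≤ A * (2 * Real.pi * δ) := by
    unfold K
    rw [← integral_sub (int_kern hden w) g1, ← k2, ← integral_const_mul]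
    refine norm_integral_le_of_norm_le (k1.const_mul _) (Eventually.of_forall fun z => ?_)
    have : db F z / (z - w) - G z * db F z = db F z * ((z - w)⁻¹ - kap δ (z - w)) := by
      rw [hG, div_eq_mul_inv]; ring
    rw [this, norm_mul]
    exact mul_le_mul (db_le hF z) (kap_diff hδ z w) (norm_nonneg _) A.2
  have r2 : ‖(((δ ^ 2)⁻¹ : ℝ) : ℂ) * (∫ z in ball w δ, F z) - Real.pi * F w‖ ≤ Real.pi * A * δ := by
    have h1 : (Real.pi : ℂ) * F w = (((δ ^ 2)⁻¹ : ℝ) : ℂ) * ∫ z in ball w δ, F w := by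
      rw [setIntegral_const, bvol, Complex.real_smul]
      have : (δ : ℂ) ≠ 0 := by exact_mod_cast hδ.ne'
      push_cast
      field_simp
    have hci : IntegrableOn (fun _ : ℂ => F w) (ball w δ) := integrableOn_const bfin
    rw [h1, ← mul_sub, ← integral_sub hFi hci, norm_mul, Complex.norm_real, Real.norm_eq_abs,
      abs_of_pos (inv_pos.2 (pow_pos hδ 2))]
    have h2 : ‖∫ z in ball w δ, (F z - F w)‖ ≤ (A * δ) * volume.real (ball w δ) := by
      refine norm_setIntegral_le_of_norm_le_const measure_ball_lt_top fun z hz => ?_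
      rw [← dist_eq_norm]
      exact (hF.dist_le_mul z w).trans (mul_le_mul_of_nonneg_left (mem_ball.1 hz).le A.2)
    calc (δ ^ 2)⁻¹ * ‖∫ z in ball w δ, (F z - F w)‖
        ≤ (δ ^ 2)⁻¹ * ((A * δ) * volume.real (ball w δ)) :=
          mul_le_mul_of_nonneg_left h2 (inv_pos.2 (pow_pos hδ 2)).le
      _ = Real.pi * A * δ := by
          rw [bvol]
          have := hδ.ne'
          field_simp
  have h5 : K (db F) w + Real.pi * F w = (K (db F) w - ∫ z, G z * db F z) -
      ((((δ ^ 2)⁻¹ : ℝ) : ℂ) * (∫ z in ball w δ, F z) - Real.pi * F w) := by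
    rw [e3, e4]; ring
  rw [h5]
  refine (norm_sub_le _ _).trans ?_
  linarith

end Pool.Agent.V1173.RX
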